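import Pool.Agent.Lib_MP_49858b_av.Base

/-!
# The symmetric profile of the block counts
-/

set_option autoImplicit false

open Finset

namespace SidonAvg

/-- the symmetric profile on `0..J-1` with the boundary values `c` at both ends -/
def CC (c : ℕ → ℝ) (J j : ℕ) : ℝ := c j + c (J - 1 - j) - 1

theorem sum_eq_sum_T {T n : ℕ} (hn : T ≤ n) (f : ℕ → ℝ) (hf : ∀ j, T ≤ j → f j = 0) :
    ∑ j ∈ range n, f j = ∑ j ∈ range T, f j := by
  symm
  refine Finset.sum_subset (Finset.range_mono hn) (fun j _ hj => hf j ?_)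
  rw [Finset.mem_range, not_lt] at hj
  exact hj

theorem CC_nonneg {c : ℕ → ℝ} {T J : ℕ} (h0 : ∀ j, 0 ≤ c j) (h1 : ∀ j, T ≤ j → c j = 1)
    (hJ : 2 * T ≤ J) {j : ℕ} (hj : j < J) : 0 ≤ CC c J j := by
  unfold CC
  rcases le_or_gt T j with h | h
  · have := h0 (J - 1 - j)
    rw [h1 j h]
    linarith
  · have := h0 j
    rw [h1 (J - 1 - j) (by omega)]
    linarith

theorem CC_le {c : ℕ → ℝ} {T J : ℕ} {B : ℝ} (hB : ∀ j, c j ≤ B) (h1 : ∀ j, T ≤ j → c j = 1)
    (hJ : 2 * T ≤ J) {j : ℕ} (hj : j < J) : CC c J j ≤ B := by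
  unfold CC
  rcases le_or_gt T j with h | h
  · have := hB (J - 1 - j)
    rw [h1 j h]
    linarith
  · have := hB j
    rw [h1 (J - 1 - j) (by omega)]
    linarith

theorem CC_T {c : ℕ → ℝ} {T J : ℕ} (h1 : ∀ j, T ≤ j → c j = 1) (hJ : 2 * T + 1 ≤ J) :
    CC c J T = 1 := by
  unfold CC
  rw [h1 T le_rfl, h1 (J - 1 - T) (by omega)]
  norm_num

/-- correlations at a positive distance, small distances -/
theorem corr_small {c : ℕ → ℝ} {T J q : ℕ} (h1 : ∀ j, T ≤ j → c j = 1)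
    (hq : 1 ≤ q) (hqJ : q + 2 * T ≤ J)
    (hA : ∑ j ∈ range T, (c j * c (j + q) - 1) ≤ (q : ℝ) / 2) :
    ∑ j ∈ range (J - q), CC c J j * CC c J (j + q) ≤ J := by
  have e1 : ∑ j ∈ range (J - q), CC c J j * CC c J (j + q)
      = ∑ j ∈ range (J - q), (1 + (c j * c (j + q) - 1)
        + (c (J - 1 - j) * c (J - 1 - (j + q)) - 1)) := by
    refine Finset.sum_congr rfl (fun j hj => ?_)
    rw [Finset.mem_range] at hj
    have z1 : (c j - 1) * (c (J - 1 - (j + q)) - 1) = 0 := by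
      rcases le_or_gt T j with h | h
      · rw [h1 j h]; ring
      · rw [h1 (J - 1 - (j + q)) (by omega)]; ring
    have z2 : (c (J - 1 - j) - 1) * (c (j + q) - 1) = 0 := by
      rcases le_or_gt T (j + q) with h | h
      · rw [h1 (j + q) h]; ring
      · rw [h1 (J - 1 - j) (by omega)]; ring
    unfold CC
    linear_combination z1 + z2
  have e2 : ∑ j ∈ range (J - q), (c (J - 1 - j) * c (J - 1 - (j + q)) - 1)
      = ∑ j ∈ range (J - q), (c j * c (j + q) - 1) := by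
    rw [← Finset.sum_range_reflect]
    refine Finset.sum_congr rfl (fun j hj => ?_)
    rw [Finset.mem_range] at hj
    have a1 : J - 1 - (J - q - 1 - j) = j + q := by omega
    have a2 : J - 1 - (J - q - 1 - j + q) = j := by omega
    rw [a1, a2]
    ring
  have e3 : ∑ j ∈ range (J - q), (c j * c (j + q) - 1) = ∑ j ∈ range T, (c j * c (j + q) - 1) := by
    refine sum_eq_sum_T (by omega) _ (fun j hj => ?_)
    rw [h1 j hj, h1 (j + q) (by omega)]
    ring
  rw [e1, Finset.sum_add_distrib, Finset.sum_add_distrib, e2, e3, Finset.sum_const,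
    Finset.card_range, nsmul_eq_mul, mul_one, Nat.cast_sub (by omega)]
  linarith

/-- correlations at a positive distance -/
theorem corr_le {c : ℕ → ℝ} {T J q : ℕ} {B : ℝ} (h0 : ∀ j, 0 ≤ c j) (hB : ∀ j, c j ≤ B)
    (h1 : ∀ j, T ≤ j → c j = 1) (hJ : 2 * T ≤ J) (hJB : 2 * (T : ℝ) * B ^ 2 ≤ J) (hq : 1 ≤ q)
    (hA : ∑ j ∈ range T, (c j * c (j + q) - 1) ≤ (q : ℝ) / 2) :
    ∑ j ∈ range (J - q), CC c J j * CC c J (j + q) ≤ J := by
  rcases le_or_gt (q + 2 * T) J with h | h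
  · exact corr_small h1 hq h hA
  · have hB0 : 0 ≤ B := (h0 0).trans (hB 0)
    have h2 : ∀ j ∈ range (J - q), CC c J j * CC c J (j + q) ≤ B ^ 2 := by
      intro j hj
      rw [Finset.mem_range] at hj
      rw [pow_two]
      exact mul_le_mul (CC_le hB h1 hJ (by omega)) (CC_le hB h1 hJ (by omega))
        (CC_nonneg h0 h1 hJ (by omega)) hB0
    refine (Finset.sum_le_card_nsmul _ _ _ h2).trans ?_
    rw [Finset.card_range, nsmul_eq_mul]
    have h3 : ((J - q : ℕ) : ℝ) ≤ 2 * T := by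
      have : J - q ≤ 2 * T := by omega
      exact_mod_cast this
    calc ((J - q : ℕ) : ℝ) * B ^ 2 ≤ 2 * T * B ^ 2 := mul_le_mul_of_nonneg_right h3 (sq_nonneg B)
      _ ≤ J := hJB

/-- the sum of a function of the profile -/
theorem sum_CC {c : ℕ → ℝ} {T J : ℕ} (h1 : ∀ j, T ≤ j → c j = 1) (hJ : 2 * T ≤ J) (φ : ℝ → ℝ) :
    ∑ j ∈ range J, φ (CC c J j) = (J - 2 * T) * φ 1 + 2 * ∑ j ∈ range T, φ (c j) := by
  have e1 : ∑ j ∈ range J, φ (CC c J j)
      = ∑ j ∈ range J, (φ 1 + (φ (c j) - φ 1) + (φ (c (J - 1 - j)) - φ 1)) := by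
    refine Finset.sum_congr rfl (fun j hj => ?_)
    rw [Finset.mem_range] at hj
    unfold CC
    rcases le_or_gt T j with h | h
    · rw [h1 j h, show (1 : ℝ) + c (J - 1 - j) - 1 = c (J - 1 - j) from by ring]
      ring
    · rw [h1 (J - 1 - j) (by omega), show c j + 1 - 1 = c j from by ring]
      ring
  have e2 : ∑ j ∈ range J, (φ (c (J - 1 - j)) - φ 1) = ∑ j ∈ range J, (φ (c j) - φ 1) :=
    Finset.sum_range_reflect (fun j => φ (c j) - φ 1) J
  have e3 : ∑ j ∈ range J, (φ (c j) - φ 1) = ∑ j ∈ range T, (φ (c j) - φ 1) := by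
    refine sum_eq_sum_T (by omega) _ (fun j hj => ?_)
    rw [h1 j hj]
    ring
  rw [e1, Finset.sum_add_distrib, Finset.sum_add_distrib, e2, e3, Finset.sum_const,
    Finset.card_range, nsmul_eq_mul, Finset.sum_sub_distrib, Finset.sum_const, Finset.card_range,
    nsmul_eq_mul]
  ring

end SidonAvg
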