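import Pool.Agent.Lib_MP_49858b_av.Blk1

/-!
# Piece SA-Blk2: block families
-/

set_option autoImplicit false

open Finset

namespace SidonAvg

/-- the place as a number -/
private def pos {J L : ℕ} (p : Fin J × Fin L) : ℕ := (p.1 : ℕ) * L + p.2 + 1

private theorem divmod_unique {L a b a' b' : ℕ} (hb : b < L) (hb' : b' < L)
    (h : a * L + b = a' * L + b') : a = a' ∧ b = b' := by
  have hL : 0 < L := by omega
  have h1 : (a * L + b) / L = a := by
    rw [mul_comm, Nat.mul_add_div hL, Nat.div_eq_of_lt hb, add_zero]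
  have h2 : (a' * L + b') / L = a' := by
    rw [mul_comm, Nat.mul_add_div hL, Nat.div_eq_of_lt hb', add_zero]
  have h3 : a = a' := by rw [← h1, ← h2, h]
  subst h3
  exact ⟨rfl, by omega⟩

private theorem pos_inj {J L : ℕ} : Function.Injective (pos : Fin J × Fin L → ℕ) := by
  rintro ⟨a, b⟩ ⟨a', b'⟩ h
  have h1 : (a : ℕ) * L + b = (a' : ℕ) * L + b' := by
    have : (a : ℕ) * L + b + 1 = (a' : ℕ) * L + b' + 1 := h
    omega
  obtain ⟨h2, h3⟩ := divmod_unique b.2 b'.2 h1
  rw [Prod.mk.injEq]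
  exact ⟨Fin.ext h2, Fin.ext h3⟩

/-- the set of `ω` -/
private noncomputable def AO {J L : ℕ} (n : ℕ → ℕ) (ω : Om J L) : Finset ℕ :=
  (blk n ω).image pos

private theorem AO_sub {J L : ℕ} (n : ℕ → ℕ) (ω : Om J L) : AO n ω ⊆ Finset.Icc 1 (J * L) := by
  intro x hx
  unfold AO at hx
  obtain ⟨p, _, rfl⟩ := Finset.mem_image.1 hx
  rw [Finset.mem_Icc]
  unfold pos
  have h1 := p.1.2
  have h2 := p.2.2
  refine ⟨by omega, ?_⟩
  have h3 : ((p.1 : ℕ) + 1) * L ≤ J * L := Nat.mul_le_mul_right _ h1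
  have h4 : ((p.1 : ℕ) + 1) * L = (p.1 : ℕ) * L + L := by ring
  omega

private theorem AO_card {J L : ℕ} (n : ℕ → ℕ) (hn : ∀ j, j < J → n j ≤ L) (ω : Om J L) :
    (AO n ω).card = ∑ j ∈ range J, n j := by
  unfold AO
  rw [Finset.card_image_of_injective _ pos_inj, blk_card n hn ω]

/-- `rr` counts pairs of places -/
private theorem rr_AO {J L : ℕ} (n : ℕ → ℕ) (ω : Om J L) (d : ℕ) :
    rr (AO n ω) d = (univ.filter (fun pp : (Fin J × Fin L) × (Fin J × Fin L) =>
      (pp.1 ∈ blk n ω ∧ pp.2 ∈ blk n ω) ∧ pos pp.2 = pos pp.1 + d)).card := by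
  classical
  unfold rr
  have h1 : (AO n ω).filter (fun x => x + d ∈ AO n ω) =
      (univ.filter (fun pp : (Fin J × Fin L) × (Fin J × Fin L) =>
        (pp.1 ∈ blk n ω ∧ pp.2 ∈ blk n ω) ∧ pos pp.2 = pos pp.1 + d)).image
        (fun pp => pos pp.1) := by
    ext x
    simp only [Finset.mem_filter, Finset.mem_image, Finset.mem_univ, true_and, AO]
    constructor
    · rintro ⟨⟨p, hp, rfl⟩, ⟨p', hp', h⟩⟩
      exact ⟨(p, p'), ⟨⟨hp, hp'⟩, h⟩, rfl⟩
    · rintro ⟨⟨p, p'⟩, ⟨⟨hp, hp'⟩, h⟩, rfl⟩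
      exact ⟨⟨p, hp, rfl⟩, ⟨p', hp', h⟩⟩
  rw [h1, Finset.card_image_of_injOn]
  rintro ⟨p, p'⟩ hp ⟨r, r'⟩ hr h
  rw [Finset.mem_coe, Finset.mem_filter] at hp hr
  have h2 : p = r := pos_inj h
  have h3 : pos p' = pos r' := by
    rw [hp.2.2, hr.2.2]
    exact congrArg (· + d) h
  rw [Prod.mk.injEq]
  exact ⟨h2, pos_inj h3⟩

private theorem sum_rr {J L : ℕ} (n : ℕ → ℕ) (d : ℕ) :
    ∑ ω : Om J L, (rr (AO n ω) d : ℝ) =
      ∑ p : Fin J × Fin L, ∑ p' : Fin J × Fin L,
        if pos p' = pos p + d then (NN n p p' : ℝ) else 0 := by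
  classical
  have h1 : ∀ ω : Om J L, (rr (AO n ω) d : ℝ) =
      ∑ p : Fin J × Fin L, ∑ p' : Fin J × Fin L,
        if (p ∈ blk n ω ∧ p' ∈ blk n ω) ∧ pos p' = pos p + d then (1 : ℝ) else 0 := by
    intro ω
    rw [rr_AO, Finset.card_filter]
    push_cast
    rw [← Finset.univ_product_univ, Finset.sum_product]
  simp only [h1]
  rw [Finset.sum_comm]
  refine Finset.sum_congr rfl (fun p _ => ?_)
  rw [Finset.sum_comm]
  refine Finset.sum_congr rfl (fun p' _ => ?_)
  by_cases h : pos p' = pos p + d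
  · rw [if_pos h]
    unfold NN
    rw [Finset.card_filter]
    push_cast
    refine Finset.sum_congr rfl (fun ω _ => ?_)
    simp only [h, and_true]
  · rw [if_neg h]
    simp only [h, and_false, if_false, Finset.sum_const_zero]

/-- normalised pair weights -/
private noncomputable def rho (n : ℕ → ℕ) (L j j' : ℕ) : ℝ :=
  if j = j' then (n j : ℝ) * ((n j : ℝ) - 1) / ((L : ℝ) * ((L : ℝ) - 1))
  else (n j : ℝ) * (n j' : ℝ) / ((L : ℝ) * L)

private theorem NN_val {J L : ℕ} (hL : 2 ≤ L) (n : ℕ → ℕ) (hn : ∀ j, j < J → n j ≤ L)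
    (p p' : Fin J × Fin L) (h : p ≠ p') :
    (NN n p p' : ℝ) = Fintype.card (Om J L) * rho n L p.1 p'.1 := by
  have hL' : (2 : ℝ) ≤ L := by exact_mod_cast hL
  unfold rho
  by_cases hj : p.1 = p'.1
  · obtain ⟨j, x⟩ := p
    obtain ⟨j', y⟩ := p'
    simp only at hj
    subst hj
    have hxy : x ≠ y := fun e => h (by rw [e])
    have h1 := NN_eq n hn j x y hxy
    rw [if_pos rfl, mul_div_assoc', eq_div_iff (by
      have : (0 : ℝ) < (L : ℝ) * ((L : ℝ) - 1) := by nlinarith
      exact this.ne')]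
    have h2 : ((NN n (j, x) (j, y) * (L * (L - 1)) : ℕ) : ℝ) =
        ((Fintype.card (Om J L) * (n j * (n j - 1)) : ℕ) : ℝ) := by rw [h1]
    have h3 : ((L - 1 : ℕ) : ℝ) = (L : ℝ) - 1 := by
      rw [Nat.cast_sub (by omega)]
      norm_num
    have h4 : ((n j : ℝ)) * ((n j - 1 : ℕ) : ℝ) = (n j : ℝ) * ((n j : ℝ) - 1) := by
      rcases Nat.eq_zero_or_pos (n j) with h0 | h0
      · rw [h0]; simp
      · rw [Nat.cast_sub (by omega)]
        norm_num
    rw [Nat.cast_mul, Nat.cast_mul, Nat.cast_mul, Nat.cast_mul, h3, h4] at h2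
    exact h2
  · have h1 := NN_ne n hn p p' hj
    have hj' : (p.1 : ℕ) ≠ p'.1 := fun e => hj (Fin.ext e)
    rw [if_neg hj', mul_div_assoc', eq_div_iff (by positivity)]
    have h2 : ((NN n p p' * (L * L) : ℕ) : ℝ) =
        ((Fintype.card (Om J L) * (n p.1 * n p'.1) : ℕ) : ℝ) := by rw [h1]
    rw [Nat.cast_mul, Nat.cast_mul, Nat.cast_mul, Nat.cast_mul] at h2
    exact h2

/-- weights along a shift of blocks -/
private noncomputable def rs (n : ℕ → ℕ) (J L q j : ℕ) : ℝ :=
  if j + q < J then rho n L j (j + q) else 0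

private theorem sum_rs (J L : ℕ) (hL : 2 ≤ L) (n : ℕ → ℕ) (lam : ℝ)
    (h0 : (∑ j ∈ range J, ((n j : ℝ) * ((n j : ℝ) - 1))) ≤ lam * ((L : ℝ) - 1))
    (hq : ∀ q : ℕ, 1 ≤ q → (∑ j ∈ range (J - q), ((n j : ℝ) * (n (j + q) : ℝ))) ≤ lam * L)
    (q : ℕ) : ∑ j ∈ range J, rs n J L q j ≤ lam / L := by
  have hL' : (2 : ℝ) ≤ L := by exact_mod_cast hL
  have hL0 : (0 : ℝ) < L := by linarith
  have hL1 : (0 : ℝ) < (L : ℝ) - 1 := by linarith
  rcases Nat.eq_zero_or_pos q with rfl | hq1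
  · have h1 : ∑ j ∈ range J, rs n J L 0 j =
        (∑ j ∈ range J, ((n j : ℝ) * ((n j : ℝ) - 1))) / ((L : ℝ) * ((L : ℝ) - 1)) := by
      rw [Finset.sum_div]
      refine Finset.sum_congr rfl (fun j hj => ?_)
      unfold rs rho
      rw [if_pos (by simpa using Finset.mem_range.1 hj), if_pos (by simp)]
    rw [h1, div_le_div_iff₀ (by positivity) hL0]
    nlinarith [mul_le_mul_of_nonneg_right h0 hL0.le]
  · have h1 : ∑ j ∈ range J, rs n J L q j =
        (∑ j ∈ range (J - q), ((n j : ℝ) * (n (j + q) : ℝ))) / ((L : ℝ) * L) := by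
      rw [Finset.sum_div]
      have h2 : range (J - q) ⊆ range J := by
        intro j hj
        rw [Finset.mem_range] at hj ⊢
        omega
      rw [← Finset.sum_subset h2]
      · refine Finset.sum_congr rfl (fun j hj => ?_)
        have hj' := Finset.mem_range.1 hj
        unfold rs rho
        rw [if_pos (by omega), if_neg (by omega)]
      · intro j _ hj
        rw [Finset.mem_range, not_lt] at hj
        unfold rs
        rw [if_neg (by omega)]
    rw [h1, div_le_div_iff₀ (by positivity) hL0]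
    nlinarith [mul_le_mul_of_nonneg_right (hq q hq1) hL0.le]

private theorem inner_sum {J L : ℕ} (p : Fin J × Fin L) (d a b : ℕ) (hb : b < L)
    (h : pos p + d = a * L + b + 1) (f : Fin J × Fin L → ℝ) :
    (∑ p' : Fin J × Fin L, if pos p' = pos p + d then f p' else 0) =
      if ha : a < J then f (⟨a, ha⟩, ⟨b, hb⟩) else 0 := by
  rw [h]
  have key : ∀ p' : Fin J × Fin L, pos p' = a * L + b + 1 → (p'.1 : ℕ) = a ∧ (p'.2 : ℕ) = b := by
    intro p' h1
    unfold pos at h1
    exact divmod_unique p'.2.2 hb (by omega)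
  by_cases ha : a < J
  · rw [dif_pos ha, Finset.sum_eq_single (⟨a, ha⟩, ⟨b, hb⟩)]
    · rw [if_pos]
      unfold pos
      rfl
    · intro p' _ hne
      rw [if_neg]
      intro h1
      obtain ⟨h2, h3⟩ := key p' h1
      exact hne (Prod.ext (Fin.ext h2) (Fin.ext h3))
    · intro h1
      exact absurd (Finset.mem_univ _) h1
  · rw [dif_neg ha]
    refine Finset.sum_eq_zero (fun p' _ => ?_)
    rw [if_neg]
    intro h1
    obtain ⟨h2, _⟩ := key p' h1
    exact ha (h2 ▸ p'.1.2)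

/-- The family indexed by `Om J L` (transport to `Fin M`, `M = card (Om J L)`, by `Fintype.equivFin`): the set of
`ω` is the image of `blk n ω` under the injective map `(j, x) ↦ j L + x + 1` onto `1..J L`. For `d = q L + e`,
`0 ≤ e < L`, the sum over `ω` of `rr` is the sum of `NN n p p'` over the pairs of places with
`pos p' = pos p + d`: for `p = (j, x)` this is `p' = (j+q, x+e)` if `x + e < L` (there are `L - e` such `x`, and
`j + q < J` is needed) and `p' = (j+q+1, x+e-L)` if `x + e ≥ L` (`e` such `x`, `j + q + 1 < J`). So by `NN_ne` (and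
`NN_eq` for the first type if `q = 0`, where `e ≥ 1`) the sum divided by `M` is
`(L-e)/L^2 * R_q + e/L^2 * R_(q+1)`, resp. `(L-e)/(L (L-1)) * R_0 + e/L^2 * R_1`, with
`R_q = ∑_{j<J-q} n j * n (j+q) ≤ lam L` and `R_0 = ∑_{j<J} n j (n j - 1) ≤ lam (L-1)`; in both cases it is
`≤ lam ((L-e)/L + e/L) = lam`. -/
theorem block_family (J L : ℕ) (hL : 2 ≤ L) (n : ℕ → ℕ) (hn : ∀ j, j < J → n j ≤ L)
    (lam : ℝ) (hlam : 0 < lam)
    (h0 : (∑ j ∈ range J, ((n j : ℝ) * ((n j : ℝ) - 1))) ≤ lam * ((L : ℝ) - 1))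
    (hq : ∀ q : ℕ, 1 ≤ q → (∑ j ∈ range (J - q), ((n j : ℝ) * (n (j + q) : ℝ))) ≤ lam * L) :
    ∃ (M : ℕ) (A : Fin M → Finset ℕ), 0 < M ∧
      (∀ i, A i ⊆ Finset.Icc 1 (J * L) ∧ (A i).card = ∑ j ∈ range J, n j) ∧
      ∀ d : ℕ, 0 < d → (∑ i, (rr (A i) d : ℝ)) ≤ lam * M := by
  classical
  refine ⟨Fintype.card (Om J L), fun i => AO n ((Fintype.equivFin (Om J L)).symm i),
    Fintype.card_pos, fun i => ⟨AO_sub n _, AO_card n hn _⟩, fun d hd => ?_⟩
  rw [Equiv.sum_comp (Fintype.equivFin (Om J L)).symm (fun ω => (rr (AO n ω) d : ℝ)), sum_rr]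
  have hL0 : 0 < L := by omega
  have hL' : (0 : ℝ) < L := by exact_mod_cast hL0
  obtain ⟨q, hq'⟩ : ∃ q, q = d / L := ⟨_, rfl⟩
  obtain ⟨e, he'⟩ : ∃ e, e = d % L := ⟨_, rfl⟩
  have he : e < L := by rw [he']; exact Nat.mod_lt _ hL0
  have hd' : d = q * L + e := by
    rw [hq', he', mul_comm]
    exact (Nat.div_add_mod d L).symm
  -- the inner sums
  have hin : ∀ p : Fin J × Fin L, (∑ p' : Fin J × Fin L,
      if pos p' = pos p + d then (NN n p p' : ℝ) else 0) =
      Fintype.card (Om J L) * (if (p.2 : ℕ) + e < L then rs n J L q p.1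
        else rs n J L (q + 1) p.1) := by
    intro p
    have hne : ∀ p' : Fin J × Fin L, pos p' = pos p + d → p ≠ p' := by
      rintro p' h rfl
      omega
    by_cases hx : (p.2 : ℕ) + e < L
    · have hpos : pos p + d = ((p.1 : ℕ) + q) * L + ((p.2 : ℕ) + e) + 1 := by
        unfold pos
        rw [hd']
        ring
      rw [inner_sum p d _ _ hx hpos, if_pos hx]
      unfold rs
      by_cases ha : (p.1 : ℕ) + q < J
      · rw [dif_pos ha, if_pos ha, NN_val hL n hn]
        apply hne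
        rw [hpos]
        rfl
      · rw [dif_neg ha, if_neg ha, mul_zero]
    · have hb : (p.2 : ℕ) + e - L < L := by
        have := p.2.2
        omega
      have hpos : pos p + d = ((p.1 : ℕ) + (q + 1)) * L + ((p.2 : ℕ) + e - L) + 1 := by
        unfold pos
        rw [hd']
        have h1 : ((p.1 : ℕ) + (q + 1)) * L = (p.1 : ℕ) * L + q * L + L := by ring
        rw [h1]
        omega
      rw [inner_sum p d _ _ hb hpos, if_neg hx]
      unfold rs
      by_cases ha : (p.1 : ℕ) + (q + 1) < J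
      · rw [dif_pos ha, if_pos ha, NN_val hL n hn]
        apply hne
        rw [hpos]
        rfl
      · rw [dif_neg ha, if_neg ha, mul_zero]
  simp only [hin]
  rw [← Finset.mul_sum, ← Finset.univ_product_univ, Finset.sum_product]
  -- the sum over the places of one block
  have hblk : ∀ j : Fin J, (∑ x : Fin L, if (x : ℕ) + e < L then rs n J L q (j : ℕ)
      else rs n J L (q + 1) (j : ℕ)) =
      ((L : ℝ) - e) * rs n J L q (j : ℕ) + e * rs n J L (q + 1) (j : ℕ) := by
    intro j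
    rw [Fin.sum_univ_eq_sum_range (fun x : ℕ => if x + e < L then rs n J L q (j : ℕ)
      else rs n J L (q + 1) (j : ℕ)) L, Finset.sum_ite, Finset.sum_const, Finset.sum_const,
      nsmul_eq_mul, nsmul_eq_mul]
    have h1 : ((range L).filter (fun x => x + e < L)) = range (L - e) := by
      ext x
      simp only [Finset.mem_filter, Finset.mem_range]
      omega
    have h2 : ((range L).filter (fun x => ¬ (x + e < L))).card = e := by
      have h3 := Finset.card_filter_add_card_filter_not (s := range L) (fun x => x + e < L)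
      rw [h1, Finset.card_range, Finset.card_range] at h3
      omega
    rw [h1, Finset.card_range, h2, Nat.cast_sub he.le]
  simp only [hblk]
  rw [Finset.sum_add_distrib, ← Finset.mul_sum, ← Finset.mul_sum,
    Fin.sum_univ_eq_sum_range (fun j => rs n J L q j) J,
    Fin.sum_univ_eq_sum_range (fun j => rs n J L (q + 1) j) J]
  have b1 := sum_rs J L hL n lam h0 hq q
  have b2 := sum_rs J L hL n lam h0 hq (q + 1)
  have he1 : (0 : ℝ) ≤ (L : ℝ) - e := by
    have : (e : ℝ) ≤ L := by exact_mod_cast he.le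
    linarith
  have he0 : (0 : ℝ) ≤ e := Nat.cast_nonneg _
  have hsum : ((L : ℝ) - e) * (∑ j ∈ range J, rs n J L q j) +
      e * (∑ j ∈ range J, rs n J L (q + 1) j) ≤ lam := by
    calc _ ≤ ((L : ℝ) - e) * (lam / L) + e * (lam / L) :=
          add_le_add (mul_le_mul_of_nonneg_left b1 he1) (mul_le_mul_of_nonneg_left b2 he0)
      _ = lam := by
          field_simp
          ring
  calc _ ≤ (Fintype.card (Om J L) : ℝ) * lam :=
        mul_le_mul_of_nonneg_left hsum (Nat.cast_nonneg _)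
    _ = lam * Fintype.card (Om J L) := mul_comm _ _

end SidonAvg
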