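import Pool.Agent.Lib_MP_49858b_av.Seq3

/-!
# Piece SA-Seq4: truncation
-/

set_option autoImplicit false

open Finset

namespace SidonAvg

/-- the tails of a nonnegative summable sequence shifted further are smaller -/
private lemma tsum_shift_le (g : ℕ → ℝ) (hg : Summable g) (h0 : ∀ j, 0 ≤ g j) (T q : ℕ) :
    ∑' j, g (j + T + q) ≤ ∑' j, g (j + T) := by
  have hT : Summable (fun j => g (j + T)) := (summable_nat_add_iff T).2 hg
  have h1 := hT.sum_add_tsum_nat_add q
  have h2 : ∀ j, g (j + q + T) = g (j + T + q) := fun j => by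
    congr 1
    omega
  have h3 : 0 ≤ ∑ i ∈ range q, g (i + T) := Finset.sum_nonneg (fun i _ => h0 _)
  have h4 : ∑' j, g (j + q + T) = ∑' j, g (j + T + q) := tsum_congr h2
  linarith

/-- truncation for a general sequence -/
private lemma trunc (f : ℕ → ℝ) (B : ℝ) (h0 : ∀ j, 0 ≤ f j) (hB : ∀ j, f j ≤ B)
    (hs : Summable (fun j => |f j - 1|)) (T q : ℕ)
    (hsA : Summable (fun j => f j * f (j + q) - 1)) :
    ∑ j ∈ range T, ((if j < T then f j else 1) * (if j + q < T then f (j + q) else 1) - 1)
      ≤ ∑' j, (f j * f (j + q) - 1) + (2 * B + 1) * ∑' j, |f (j + T) - 1| := by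
  have hBn : 0 ≤ B := (h0 0).trans (hB 0)
  set tau : ℝ := ∑' j, |f (j + T) - 1| with htau
  have hg0 : ∀ j, 0 ≤ |f j - 1| := fun j => abs_nonneg _
  have htail : ∑' j, |f (j + T + q) - 1| ≤ tau := tsum_shift_le (fun j => |f j - 1|) hs hg0 T q
  -- first part
  have hsplit := hsA.sum_add_tsum_nat_add T
  have hA : ∑ j ∈ range T, ((if j < T then f j else 1) * (if j + q < T then f (j + q) else 1) - 1)
      - ∑ j ∈ range T, (f j * f (j + q) - 1)
      ≤ B * tau := by
    rw [← Finset.sum_sub_distrib]
    have hle : ∀ j ∈ range T,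
        ((if j < T then f j else 1) * (if j + q < T then f (j + q) else 1) - 1)
          - (f j * f (j + q) - 1)
        ≤ B * (if j + q < T then 0 else |f (j + q) - 1|) := by
      intro j hj
      rw [if_pos (Finset.mem_range.1 hj)]
      by_cases h : j + q < T
      · rw [if_pos h, if_pos h]
        simp
      · rw [if_neg h, if_neg h]
        have h5 : f j * 1 - 1 - (f j * f (j + q) - 1) = f j * (1 - f (j + q)) := by ring
        rw [h5]
        calc f j * (1 - f (j + q)) ≤ f j * |f (j + q) - 1| := by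
              apply mul_le_mul_of_nonneg_left _ (h0 j)
              rw [abs_sub_comm]
              exact le_abs_self _
          _ ≤ B * |f (j + q) - 1| := mul_le_mul_of_nonneg_right (hB j) (abs_nonneg _)
    refine (Finset.sum_le_sum hle).trans ?_
    rw [← Finset.mul_sum]
    apply mul_le_mul_of_nonneg_left _ hBn
    -- the sum over `range T` of a shifted sequence
    set g : ℕ → ℝ := fun i => if i < T then 0 else |f i - 1| with hg
    have hgn : ∀ i, 0 ≤ g i := by
      intro i
      rw [hg]
      dsimp only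
      split_ifs
      · exact le_refl _
      · exact abs_nonneg _
    have hgle : ∀ i, g i ≤ |f i - 1| := by
      intro i
      rw [hg]
      dsimp only
      split_ifs
      · exact abs_nonneg _
      · exact le_refl _
    have hgs : Summable g := Summable.of_nonneg_of_le hgn hgle hs
    have h6 : ∑ j ∈ range T, (if j + q < T then 0 else |f (j + q) - 1|)
        = ∑ j ∈ range T, g (j + q) := rfl
    rw [h6]
    have h7 : ∑ j ∈ range T, g (j + q) ≤ ∑' j, g (j + q) :=
      ((summable_nat_add_iff q).2 hgs).sum_le_tsum _ (fun i _ => hgn _)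
    have h8 : ∑' j, g (j + q) ≤ ∑' j, g j := by
      have h9 := tsum_shift_le g hgs hgn 0 q
      simpa using h9
    have h10 : ∑' j, g j = tau := by
      have h11 := hgs.sum_add_tsum_nat_add T
      have h12 : ∑ i ∈ range T, g i = 0 := by
        apply Finset.sum_eq_zero
        intro i hi
        rw [hg]
        dsimp only
        rw [if_pos (Finset.mem_range.1 hi)]
      have h13 : ∑' i, g (i + T) = tau := by
        rw [htau]
        apply tsum_congr
        intro i
        rw [hg]
        dsimp only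
        rw [if_neg (by omega)]
      rw [h12, h13] at h11
      linarith
    linarith
  have hC : -(∑' j, (f (j + T) * f (j + T + q) - 1)) ≤ (1 + B) * tau := by
    have hs1 : Summable (fun j => f (j + T) * f (j + T + q) - 1) :=
      (summable_nat_add_iff (f := fun j => f j * f (j + q) - 1) T).2 hsA
    have hs2 : Summable (fun j => |f (j + T) - 1|) :=
      (summable_nat_add_iff (f := fun j => |f j - 1|) T).2 hs
    have hs3 : Summable (fun j => |f (j + T + q) - 1|) := by
      have h14 := (summable_nat_add_iff (f := fun j => |f j - 1|) (T + q)).2 hs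
      refine h14.congr (fun j => ?_)
      rw [add_assoc]
    have hs4 : Summable (fun j => |f (j + T) - 1| + B * |f (j + T + q) - 1|) :=
      hs2.add (hs3.mul_left B)
    have h15 : ∑' j, -(f (j + T) * f (j + T + q) - 1)
        ≤ ∑' j, (|f (j + T) - 1| + B * |f (j + T + q) - 1|) := by
      apply Summable.tsum_le_tsum _ hs1.neg hs4
      intro j
      have h16 : -(f (j + T) * f (j + T + q) - 1)
          = (1 - f (j + T)) + f (j + T) * (1 - f (j + T + q)) := by ring
      rw [h16]
      apply add_le_add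
      · rw [abs_sub_comm]
        exact le_abs_self _
      · calc f (j + T) * (1 - f (j + T + q)) ≤ f (j + T) * |f (j + T + q) - 1| := by
              apply mul_le_mul_of_nonneg_left _ (h0 _)
              rw [abs_sub_comm]
              exact le_abs_self _
          _ ≤ B * |f (j + T + q) - 1| := mul_le_mul_of_nonneg_right (hB _) (abs_nonneg _)
    rw [tsum_neg, hs2.tsum_add (hs3.mul_left B), tsum_mul_left] at h15
    have h17 : B * ∑' j, |f (j + T + q) - 1| ≤ B * tau := mul_le_mul_of_nonneg_left htail hBn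
    linarith
  have h18 : ∑' j, (f (j + T) * f (j + T + q) - 1) = ∑' j, (f (j + T) * f ((j + T) + q) - 1) := rfl
  have hsplit' : ∑ j ∈ range T, (f j * f (j + q) - 1) + ∑' j, (f (j + T) * f (j + T + q) - 1)
      = ∑' j, (f j * f (j + q) - 1) := hsplit
  linarith

/-- Truncation. Let `c j = mz w j` for `j < T` and `c j = 1` for `j ≥ T`, `tau = ∑_{j ≥ T} |mz w j - 1|` (tends to
`0` as `T → ∞`: `tendsto_sum_nat_add` with `summable_mu`), `B = (w+1)/2`. Then
`∑_{j<T} (c j * c (j+q) - 1) - AA w q = - ∑_{j<T, j+q ≥ T} mz w j (mz w (j+q) - 1) - ∑_{j ≥ T} (mz w j * mz w (j+q) - 1)`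
is at most `B tau + (1 + B) tau` in absolute value, because
`x y - 1 = (x - 1) + x (y - 1)`. Choose `T ≥ 1` with `(2 B + 1) tau ≤ 1/2` and use `AA_le`, `AA_zero`. The last
clause: `∑_{j<T} (c j - 1) = (w-1)/3 - ∑_{j≥T} (mz w j - 1)` (`tsum_mu`). -/
theorem seq_main (w : ℕ) (hw : 0 < w) : ∃ (T : ℕ) (c : ℕ → ℝ), 0 < T ∧ (∀ j, 0 ≤ c j) ∧
    (∀ j, c j ≤ ((w : ℝ) + 1) / 2) ∧ (∀ j, T ≤ j → c j = 1) ∧
    (∀ q : ℕ, 1 ≤ q → ∑ j ∈ range T, (c j * c (j + q) - 1) ≤ (q : ℝ) / 2) ∧
    (∑ j ∈ range T, (c j ^ 2 - 1) ≤ (w : ℝ) * (w + 1) / 4) ∧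
    ((w : ℝ) - 1) / 3 - 1 ≤ ∑ j ∈ range T, (c j - 1) := by
  set f : ℕ → ℝ := fun j => mz w j with hf
  have hw1 : (1 : ℝ) ≤ w := by exact_mod_cast hw
  set B : ℝ := ((w : ℝ) + 1) / 2 with hBdef
  have hB1 : 1 ≤ B := by rw [hBdef]; linarith
  have h0 : ∀ j, 0 ≤ f j := fun j => mz_nonneg w hw j
  have hB : ∀ j, f j ≤ B := fun j => mz_le w hw j
  have hs : Summable (fun j => |f j - 1|) := summable_mu w hw
  have hsA : ∀ q : ℕ, Summable (fun j => f j * f (j + q) - 1) := by
    intro q
    have h := summable_AA w hw q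
    refine h.congr (fun j => ?_)
    rw [hf]
    push_cast
    rfl
  have hAA : ∀ q : ℕ, ∑' j, (f j * f (j + q) - 1) = AA w q := by
    intro q
    rw [AA]
    apply tsum_congr
    intro j
    rw [hf]
    push_cast
    rfl
  have htend := tendsto_sum_nat_add (fun j => |f j - 1|)
  have hB2 : 0 < 2 * B + 1 := by linarith
  have hev : ∀ᶠ T in Filter.atTop, ∑' j, |f (j + T) - 1| < 1 / (2 * (2 * B + 1)) :=
    htend.eventually (gt_mem_nhds (by positivity))
  obtain ⟨T, hT, hT1⟩ := (hev.and (Filter.eventually_gt_atTop 0)).exists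
  set tau : ℝ := ∑' j, |f (j + T) - 1| with htau
  have htau0 : 0 ≤ tau := tsum_nonneg (fun j => abs_nonneg _)
  have htau1 : (2 * B + 1) * tau ≤ 1 / 2 := by
    have h1 : (2 * B + 1) * tau ≤ (2 * B + 1) * (1 / (2 * (2 * B + 1))) :=
      mul_le_mul_of_nonneg_left hT.le hB2.le
    have h2 : (2 * B + 1) * (1 / (2 * (2 * B + 1))) = 1 / 2 := by
      field_simp
    linarith
  have htau2 : tau ≤ 1 := by nlinarith
  refine ⟨T, fun j => if j < T then f j else 1, hT1, ?_, ?_, ?_, ?_, ?_, ?_⟩
  · intro j
    dsimp only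
    split_ifs
    · exact h0 j
    · exact zero_le_one
  · intro j
    dsimp only
    split_ifs
    · exact hB j
    · exact hB1
  · intro j hj
    dsimp only
    rw [if_neg (by omega)]
  · intro q hq
    have h3 := trunc f B h0 hB hs T q (hsA q)
    rw [hAA q] at h3
    have h4 := AA_le w hw q hq
    dsimp only
    linarith
  · have h3 := trunc f B h0 hB hs T 0 (hsA 0)
    rw [hAA 0, AA_zero w hw] at h3
    have h5 : ∑ j ∈ range T, ((if j < T then f j else 1) ^ 2 - 1)
        = ∑ j ∈ range T, ((if j < T then f j else 1) * (if j + 0 < T then f (j + 0) else 1) - 1) := by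
      apply Finset.sum_congr rfl
      intro j _
      rw [add_zero, sq]
    dsimp only
    rw [h5]
    linarith
  · have hs5 : Summable (fun j => f j - 1) := hs.of_abs
    have h6 := hs5.sum_add_tsum_nat_add T
    have h7 : ∑' j, (f j - 1) = ((w : ℝ) - 1) / 3 := tsum_mu w hw
    have h8 : ∑' j, (f (j + T) - 1) ≤ tau := by
      rw [htau]
      apply Summable.tsum_le_tsum _ ((summable_nat_add_iff (f := fun j => f j - 1) T).2 hs5)
        ((summable_nat_add_iff (f := fun j => |f j - 1|) T).2 hs)
      intro j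
      exact le_abs_self _
    have h9 : ∑ j ∈ range T, ((if j < T then f j else 1) - 1) = ∑ j ∈ range T, (f j - 1) := by
      apply Finset.sum_congr rfl
      intro j hj
      rw [if_pos (Finset.mem_range.1 hj)]
    dsimp only
    rw [h9]
    have h6' : ∑ j ∈ range T, (f j - 1) + ∑' j, (f (j + T) - 1) = ∑' j, (f j - 1) := h6
    linarith

end SidonAvg
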