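import Pool.Agent.Lib_MP_49858b_av.Asm1
import Pool.Agent.Lib_MP_49858b_av.Seq4
import Pool.Agent.Lib_MP_49858b_av.Blk2

/-!
# The family for given parameters
-/

set_option autoImplicit false

open Finset

namespace SidonAvg

/-- the block counts -/
noncomputable def cnts (c : ℕ → ℝ) (T J b δ j : ℕ) : ℕ :=
  if j = T then b - δ else ⌊(b : ℝ) * CC c J j⌋₊

theorem cnts_le {c : ℕ → ℝ} {T J b δ : ℕ} (h0 : ∀ j, 0 ≤ c j) (h1 : ∀ j, T ≤ j → c j = 1)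
    (hJ : 2 * T + 1 ≤ J) {j : ℕ} (hj : j < J) :
    (cnts c T J b δ j : ℝ) ≤ (b : ℝ) * CC c J j := by
  unfold cnts
  split_ifs with h
  · subst h
    rw [CC_T h1 hJ, mul_one]
    exact_mod_cast Nat.sub_le b δ
  · exact Nat.floor_le (mul_nonneg (Nat.cast_nonneg _) (CC_nonneg h0 h1 (by omega) hj))

theorem sum_cnts {c : ℕ → ℝ} {T J b δ : ℕ} (h1 : ∀ j, T ≤ j → c j = 1)
    (hJ : 2 * T + 1 ≤ J) (hδ : δ ≤ b) :
    ∑ j ∈ range J, cnts c T J b δ j + δ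
      = b * (J - 2 * T) + 2 * ∑ j ∈ range T, ⌊(b : ℝ) * c j⌋₊ := by
  have e1 : ∑ j ∈ range J, cnts c T J b δ j + δ = ∑ j ∈ range J, ⌊(b : ℝ) * CC c J j⌋₊ := by
    have hT : T ∈ range J := by rw [Finset.mem_range]; omega
    rw [← Finset.add_sum_erase _ _ hT, ← Finset.add_sum_erase _ (fun j => ⌊(b : ℝ) * CC c J j⌋₊) hT]
    have e2 : ∑ j ∈ (range J).erase T, cnts c T J b δ j
        = ∑ j ∈ (range J).erase T, ⌊(b : ℝ) * CC c J j⌋₊ := by
      refine Finset.sum_congr rfl (fun j hj => ?_)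
      rw [Finset.mem_erase] at hj
      unfold cnts
      rw [if_neg hj.1]
    have e3 : cnts c T J b δ T = b - δ := by
      unfold cnts
      rw [if_pos rfl]
    rw [e2, e3, CC_T h1 hJ, mul_one, Nat.floor_natCast]
    omega
  have e4 := sum_CC (J := J) h1 (by omega) (fun x => ((⌊(b : ℝ) * x⌋₊ : ℕ) : ℝ))
  simp only [mul_one, Nat.floor_natCast] at e4
  rw [e1]
  have e5 : ((J - 2 * T : ℕ) : ℝ) = (J : ℝ) - 2 * T := by
    rw [Nat.cast_sub (by omega)]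
    push_cast
    ring
  have e6 : ((∑ j ∈ range J, ⌊(b : ℝ) * CC c J j⌋₊ : ℕ) : ℝ)
      = ((b * (J - 2 * T) + 2 * ∑ j ∈ range T, ⌊(b : ℝ) * c j⌋₊ : ℕ) : ℝ) := by
    push_cast
    rw [e4, ← e5]
    push_cast
    ring
  exact_mod_cast e6

/-- the family for given parameters -/
theorem construct (w : ℕ) (hw : 0 < w) {T : ℕ} {c : ℕ → ℝ} (h0 : ∀ j, 0 ≤ c j)
    (hB : ∀ j, c j ≤ ((w : ℝ) + 1) / 2) (h1 : ∀ j, T ≤ j → c j = 1)
    (hA : ∀ q : ℕ, 1 ≤ q → ∑ j ∈ range T, (c j * c (j + q) - 1) ≤ (q : ℝ) / 2)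
    (hA0 : ∑ j ∈ range T, (c j ^ 2 - 1) ≤ (w : ℝ) * (w + 1) / 4)
    {lam : ℝ} (hlam : 0 < lam) {k b J δ : ℕ} (hb : 1 ≤ b) (hδ : δ ≤ b) (hJ : 2 * T + 1 ≤ J)
    (hk : k + δ = b * (J - 2 * T) + 2 * ∑ j ∈ range T, ⌊(b : ℝ) * c j⌋₊)
    (hbk : (b : ℝ) ^ 2 * ((w : ℝ) * (w + 1) / 2) ≤ k)
    (hJB : 2 * (T : ℝ) * (((w : ℝ) + 1) / 2) ^ 2 ≤ J) (hJl : lam * ((w : ℝ) + 1) ≤ J) :
    ∃ (N M : ℕ) (A : Fin M → Finset ℕ), 0 < M ∧
      (∀ i, A i ⊆ Finset.Icc 1 N ∧ (A i).card = k) ∧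
      (∀ d : ℕ, 0 < d → (∑ i, (rr (A i) d : ℝ)) ≤ lam * M) ∧
      lam * N ≤ ((b : ℝ) * J) ^ 2 + 2 * lam * J := by
  have hb' : (1 : ℝ) ≤ b := by exact_mod_cast hb
  have hJ1 : 1 ≤ J := by omega
  have hJ' : (1 : ℝ) ≤ J := by exact_mod_cast hJ1
  obtain ⟨n, hn⟩ : ∃ n : ℕ → ℕ, n = cnts c T J b δ := ⟨_, rfl⟩
  have hnle : ∀ j, j < J → (n j : ℝ) ≤ (b : ℝ) * CC c J j := by
    intro j hj
    rw [hn]
    exact cnts_le h0 h1 hJ hj
  have hsum : ∑ j ∈ range J, n j = k := by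
    have := sum_cnts (b := b) h1 hJ hδ
    rw [← hn] at this
    omega
  obtain ⟨L0, hL0⟩ : ∃ L0 : ℕ, L0 = ⌈(b : ℝ) ^ 2 * J / lam⌉₊ := ⟨_, rfl⟩
  have hL0a : (b : ℝ) ^ 2 * J ≤ lam * L0 := by
    have h2 : (b : ℝ) ^ 2 * J / lam ≤ L0 := by rw [hL0]; exact Nat.le_ceil _
    rw [div_le_iff₀ hlam] at h2
    linarith
  have hL0b : lam * L0 ≤ (b : ℝ) ^ 2 * J + lam := by
    have h2 : (L0 : ℝ) < (b : ℝ) ^ 2 * J / lam + 1 := by
      rw [hL0]; exact Nat.ceil_lt_add_one (by positivity)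
    have h3 : (L0 : ℝ) * lam < ((b : ℝ) ^ 2 * J / lam + 1) * lam := mul_lt_mul_of_pos_right h2 hlam
    rw [add_mul, div_mul_cancel₀ _ hlam.ne', one_mul] at h3
    linarith
  have hL0c : 1 ≤ L0 := by
    have h2 : (0 : ℝ) < L0 := by
      by_contra h3
      have h4 : (L0 : ℝ) = 0 := le_antisymm (not_lt.1 h3) (Nat.cast_nonneg _)
      rw [h4] at hL0a
      nlinarith [pow_pos (lt_of_lt_of_le one_pos hb') 2]
    exact_mod_cast h2
  have hC : ∀ j, j < J → 0 ≤ CC c J j := fun j hj => CC_nonneg h0 h1 (by omega) hj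
  -- the counts are at most the block length
  have hnL : ∀ j, j < J → n j ≤ L0 + 1 := by
    intro j hj
    have h2 := hnle j hj
    have h3 : CC c J j ≤ ((w : ℝ) + 1) / 2 := CC_le hB h1 (by omega) hj
    have h4 : lam * (n j : ℝ) ≤ lam * L0 := by
      calc lam * (n j : ℝ) ≤ lam * ((b : ℝ) * (((w : ℝ) + 1) / 2)) := by
            apply mul_le_mul_of_nonneg_left _ hlam.le
            exact h2.trans (mul_le_mul_of_nonneg_left h3 (by positivity))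
        _ = (b : ℝ) * (lam * ((w : ℝ) + 1)) / 2 := by ring
        _ ≤ (b : ℝ) * J / 2 := by
            have := mul_le_mul_of_nonneg_left hJl (by positivity : (0 : ℝ) ≤ b)
            linarith
        _ ≤ (b : ℝ) ^ 2 * J := by nlinarith [mul_nonneg (by positivity : (0 : ℝ) ≤ b) (by positivity : (0 : ℝ) ≤ (J : ℝ))]
        _ ≤ lam * L0 := hL0a
    have h5 : (n j : ℝ) ≤ L0 := le_of_mul_le_mul_left h4 hlam
    have h6 : n j ≤ L0 := by exact_mod_cast h5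
    omega
  have hn0 : ∀ j, (0 : ℝ) ≤ n j := fun j => Nat.cast_nonneg _
  -- positive distances
  have hq : ∀ q : ℕ, 1 ≤ q → (∑ j ∈ range (J - q), ((n j : ℝ) * (n (j + q) : ℝ)))
      ≤ lam * ((L0 + 1 : ℕ) : ℝ) := by
    intro q hq1
    have h2 : ∑ j ∈ range (J - q), ((n j : ℝ) * (n (j + q) : ℝ))
        ≤ ∑ j ∈ range (J - q), (b : ℝ) ^ 2 * (CC c J j * CC c J (j + q)) := by
      refine Finset.sum_le_sum (fun j hj => ?_)
      rw [Finset.mem_range] at hj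
      have h3 := mul_le_mul (hnle j (by omega)) (hnle (j + q) (by omega)) (hn0 _)
        (mul_nonneg (by positivity) (hC j (by omega)))
      linarith
    rw [← Finset.mul_sum] at h2
    have h3 := corr_le (J := J) h0 hB h1 (by omega) hJB hq1 (hA q hq1)
    have h4 := mul_le_mul_of_nonneg_left h3 (by positivity : (0 : ℝ) ≤ (b : ℝ) ^ 2)
    push_cast
    linarith
  -- distance zero
  have h00 : (∑ j ∈ range J, ((n j : ℝ) * ((n j : ℝ) - 1))) ≤ lam * (((L0 + 1 : ℕ) : ℝ) - 1) := by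
    have h2 : ∑ j ∈ range J, ((n j : ℝ) * ((n j : ℝ) - 1))
        = ∑ j ∈ range J, (n j : ℝ) ^ 2 - ∑ j ∈ range J, (n j : ℝ) := by
      rw [← Finset.sum_sub_distrib]
      exact Finset.sum_congr rfl (fun j _ => by ring)
    have h3 : ∑ j ∈ range J, (n j : ℝ) = k := by exact_mod_cast hsum
    have h4 : ∑ j ∈ range J, (n j : ℝ) ^ 2 ≤ ∑ j ∈ range J, (b : ℝ) ^ 2 * (CC c J j) ^ 2 := by
      refine Finset.sum_le_sum (fun j hj => ?_)
      rw [Finset.mem_range] at hj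
      have h5 := hnle j hj
      rw [← mul_pow]
      exact pow_le_pow_left₀ (hn0 j) h5 2
    rw [← Finset.mul_sum] at h4
    have h5 := sum_CC (J := J) h1 (by omega) (fun x => x ^ 2)
    simp only [one_pow, mul_one] at h5
    have h6 : ∑ j ∈ range T, (c j) ^ 2 ≤ T + (w : ℝ) * (w + 1) / 4 := by
      rw [Finset.sum_sub_distrib, Finset.sum_const, Finset.card_range, nsmul_eq_mul, mul_one] at hA0
      linarith
    have h7 : ∑ j ∈ range J, (CC c J j) ^ 2 ≤ J + (w : ℝ) * (w + 1) / 2 := by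
      rw [h5]
      linarith
    have h8 := mul_le_mul_of_nonneg_left h7 (by positivity : (0 : ℝ) ≤ (b : ℝ) ^ 2)
    rw [h2, h3]
    push_cast
    linarith
  obtain ⟨M, A, hM, hA1, hA2⟩ := block_family J (L0 + 1) (by omega) n hnL lam hlam h00 hq
  refine ⟨J * (L0 + 1), M, A, hM, fun i => ⟨(hA1 i).1, (hA1 i).2.trans hsum⟩, hA2, ?_⟩
  push_cast
  have h9 : lam * ((L0 : ℝ) + 1) ≤ (b : ℝ) ^ 2 * J + 2 * lam := by linarith
  have h10 := mul_le_mul_of_nonneg_left h9 (by positivity : (0 : ℝ) ≤ (J : ℝ))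
  nlinarith

end SidonAvg
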