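import Pool.Agent.Lib_MP_49858b_av.Asm2

/-!
# Part (2): families with few points and small length
-/

set_option autoImplicit false

open Finset

namespace SidonAvg

theorem rpow_three_half' (k : ℕ) : ((k : ℝ)) ^ (3 / 2 : ℝ) = (√(k : ℝ)) ^ 3 := by
  rw [Real.sqrt_eq_rpow, ← Real.rpow_natCast, ← Real.rpow_mul (by positivity)]
  norm_num

theorem lower_w (w : ℕ) (hw : 6 ≤ w) (lam : ℝ) (hlam : 0 < lam) :
    ∃ (C : ℝ) (k₀ : ℕ), 0 ≤ C ∧ ∀ k : ℕ, k₀ ≤ k → ∃ (N M : ℕ) (A : Fin M → Finset ℕ), 0 < M ∧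
      (∀ i, A i ⊆ Finset.Icc 1 N ∧ (A i).card = k) ∧
      (∀ d : ℕ, 0 < d → (∑ i, (rr (A i) d : ℝ)) ≤ lam * M) ∧
      lam * N ≤ (k : ℝ) ^ 2
        - 2 * ((2 * (w : ℝ) - 11) / 3) / √((w : ℝ) * (w + 1) / 2) * (k : ℝ) ^ (3 / 2 : ℝ)
        + C * k := by
  obtain ⟨T, c, hT, h0, hB, h1, hA, hA0, hM⟩ := seq_main w (by omega)
  have hw' : (6 : ℝ) ≤ w := by exact_mod_cast hw
  obtain ⟨β, hβ⟩ : ∃ β : ℝ, β = (2 * (w : ℝ) - 11) / 3 := ⟨_, rfl⟩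
  have hβ0 : 0 < β := by rw [hβ]; linarith
  obtain ⟨θ, hθ⟩ : ∃ θ : ℝ, θ = (w : ℝ) * (w + 1) / 2 := ⟨_, rfl⟩
  have hθ1 : 1 ≤ θ := by rw [hθ]; nlinarith
  obtain ⟨rt, hrt⟩ : ∃ rt : ℝ, rt = √θ := ⟨_, rfl⟩
  have hrt2 : rt ^ 2 = θ := by rw [hrt, Real.sq_sqrt (by linarith)]
  have hrt1 : 1 ≤ rt := by rw [hrt]; exact Real.one_le_sqrt.2 hθ1
  have hT0 : (0 : ℝ) ≤ T := Nat.cast_nonneg _
  obtain ⟨X, hX⟩ : ∃ X : ℝ, X = T * ((w : ℝ) + 1) + 2 * (T : ℝ) * (((w : ℝ) + 1) / 2) ^ 2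
    + lam * ((w : ℝ) + 1) + 1 + rt := ⟨_, rfl⟩
  obtain ⟨k₀, hk₀⟩ : ∃ k₀ : ℕ, X ^ 2 ≤ k₀ := ⟨⌈X ^ 2⌉₊, Nat.le_ceil _⟩
  have hX0 : 0 ≤ X := by rw [hX]; positivity
  refine ⟨2 * β + β ^ 2 + 4 * T + 4 * T ^ 2 + 2 * lam + 4 * lam * T, k₀, by positivity, fun k hk => ?_⟩
  obtain ⟨x, hx⟩ : ∃ x : ℝ, x = √(k : ℝ) := ⟨_, rfl⟩
  have hx2 : (k : ℝ) = x ^ 2 := by rw [hx, Real.sq_sqrt (by positivity)]
  have hXx : X ≤ x := by
    rw [hx]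
    apply Real.le_sqrt_of_sq_le
    have : (k₀ : ℝ) ≤ k := by exact_mod_cast hk
    linarith
  have hp1 : 0 ≤ (T : ℝ) * ((w : ℝ) + 1) := by positivity
  have hp2 : 0 ≤ 2 * (T : ℝ) * (((w : ℝ) + 1) / 2) ^ 2 := by positivity
  have hp3 : 0 ≤ lam * ((w : ℝ) + 1) := by positivity
  have hx1 : 1 ≤ x := by linarith
  have hx0 : 0 < x := by linarith
  have hxrt : rt ≤ x := by linarith
  -- the bulk count
  obtain ⟨b, hb⟩ : ∃ b : ℕ, b = ⌊x / rt⌋₊ := ⟨_, rfl⟩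
  have hrt0 : 0 < rt := by linarith
  have hb1 : (b : ℝ) ≤ x / rt := by rw [hb]; exact Nat.floor_le (by positivity)
  have hb2 : x / rt < b + 1 := by rw [hb]; exact Nat.lt_floor_add_one _
  have hb3 : 1 ≤ b := by
    rw [hb, Nat.one_le_floor_iff]
    rw [le_div_iff₀ hrt0]
    linarith
  have hb' : (1 : ℝ) ≤ b := by exact_mod_cast hb3
  have hbx : (b : ℝ) ≤ x := hb1.trans (div_le_self hx0.le hrt1)
  have hbθ : (b : ℝ) ^ 2 * ((w : ℝ) * (w + 1) / 2) ≤ k := by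
    rw [← hθ, ← hrt2, hx2, ← mul_pow]
    have h2 : (b : ℝ) * rt ≤ x := by rwa [le_div_iff₀ hrt0] at hb1
    exact pow_le_pow_left₀ (by positivity) h2 2
  -- the boundary counts
  obtain ⟨P, hP⟩ : ∃ P : ℕ, P = ∑ j ∈ range T, ⌊(b : ℝ) * c j⌋₊ := ⟨_, rfl⟩
  have hP1 : 2 * (P : ℝ) ≤ b * (T * ((w : ℝ) + 1)) := by
    have h2 : (P : ℝ) ≤ ∑ j ∈ range T, (b : ℝ) * (((w : ℝ) + 1) / 2) := by
      rw [hP]
      push_cast
      refine Finset.sum_le_sum (fun j _ => ?_)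
      refine (Nat.floor_le (mul_nonneg (by positivity) (h0 j))).trans ?_
      exact mul_le_mul_of_nonneg_left (hB j) (by positivity)
    rw [Finset.sum_const, Finset.card_range, nsmul_eq_mul] at h2
    linarith
  have hP2 : (b : ℝ) * (T + (((w : ℝ) - 1) / 3 - 1)) - T ≤ P := by
    have h2 : ∑ j ∈ range T, ((b : ℝ) * c j - 1) ≤ P := by
      rw [hP]
      push_cast
      refine Finset.sum_le_sum (fun j _ => ?_)
      have := Nat.lt_floor_add_one ((b : ℝ) * c j)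
      linarith
    rw [Finset.sum_sub_distrib, Finset.sum_const, Finset.card_range, nsmul_eq_mul, mul_one,
      ← Finset.mul_sum] at h2
    rw [Finset.sum_sub_distrib, Finset.sum_const, Finset.card_range, nsmul_eq_mul, mul_one] at hM
    have h3 := mul_le_mul_of_nonneg_left hM (by positivity : (0 : ℝ) ≤ b)
    linarith
  have hPk : 2 * P ≤ k := by
    have h2 : 2 * (P : ℝ) ≤ k := by
      rw [hx2]
      calc 2 * (P : ℝ) ≤ b * (T * ((w : ℝ) + 1)) := hP1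
        _ ≤ x * x := mul_le_mul hbx (by linarith) hp1 hx0.le
        _ = x ^ 2 := by ring
    exact_mod_cast h2
  obtain ⟨s, hs⟩ : ∃ s : ℕ, s = (k - 2 * P + (b - 1)) / b := ⟨_, rfl⟩
  have hs1 : k - 2 * P ≤ b * s := by
    have h2 := Nat.div_add_mod (k - 2 * P + (b - 1)) b
    have h3 := Nat.mod_lt (k - 2 * P + (b - 1)) (by omega : 0 < b)
    rw [← hs] at h2
    omega
  have hs2 : b * s ≤ k - 2 * P + (b - 1) := by
    rw [hs]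
    exact Nat.mul_div_le _ _
  obtain ⟨δ, hδ⟩ : ∃ δ : ℕ, δ = b * s + 2 * P - k := ⟨_, rfl⟩
  have hδ1 : k + δ = b * s + 2 * P := by omega
  have hδ2 : δ ≤ b := by omega
  have hs3 : (k : ℝ) + δ = b * s + 2 * P := by exact_mod_cast hδ1
  have hδ3 : (δ : ℝ) ≤ b := by exact_mod_cast hδ2
  have hδ0 : (0 : ℝ) ≤ δ := Nat.cast_nonneg _
  have hs4 : x - T * ((w : ℝ) + 1) ≤ s := by
    have h2 : (b : ℝ) * (x - T * ((w : ℝ) + 1)) ≤ b * s := by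
      have h3 : (b : ℝ) * x ≤ x ^ 2 := by
        rw [pow_two]
        exact mul_le_mul_of_nonneg_right hbx hx0.le
      rw [hx2] at hs3
      linarith
    exact le_of_mul_le_mul_left h2 (by linarith)
  have hs5 : 1 ≤ s := by
    have h2 : (1 : ℝ) ≤ s := by linarith
    exact_mod_cast h2
  obtain ⟨J, hJ⟩ : ∃ J : ℕ, J = 2 * T + s := ⟨_, rfl⟩
  have hJr : (J : ℝ) = 2 * T + s := by rw [hJ]; push_cast; ring
  have hJs : J - 2 * T = s := by omega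
  obtain ⟨N, M, A, hM1, hA1, hA2, hA3⟩ := construct w (by omega) h0 hB h1 hA hA0 hlam hb3 hδ2
    (by omega : 2 * T + 1 ≤ J) (by rw [hJs, ← hP]; exact hδ1) hbθ
    (by rw [hJr]; linarith) (by rw [hJr]; linarith)
  refine ⟨N, M, A, hM1, hA1, hA2, hA3.trans ?_⟩
  rw [← hβ, ← hθ, ← hrt, rpow_three_half', ← hx, hx2]
  have hbJ : (b : ℝ) * J ≤ x ^ 2 - b * β + 2 * T := by
    rw [hJr, hβ]
    rw [hx2] at hs3
    linarith
  have hbJ0 : 0 ≤ (b : ℝ) * J := by positivity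
  have hJb : (J : ℝ) ≤ x ^ 2 + 2 * T := by
    have h2 : (J : ℝ) ≤ b * J := le_mul_of_one_le_left (by positivity) hb'
    have h3 : 0 ≤ (b : ℝ) * β := by positivity
    linarith
  have hsq : ((b : ℝ) * J) ^ 2 ≤ (x ^ 2 - b * β + 2 * T) ^ 2 := pow_le_pow_left₀ hbJ0 hbJ 2
  have hb4 : x / rt - 1 ≤ b := by linarith
  have h5 : 2 * β * x ^ 2 * (x / rt - 1) ≤ 2 * β * x ^ 2 * b :=
    mul_le_mul_of_nonneg_left hb4 (by positivity)
  have h6 : 2 * β * x ^ 2 * (x / rt - 1) = 2 * β / rt * x ^ 3 - 2 * β * x ^ 2 := by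
    field_simp
  have h7 : (b : ℝ) ^ 2 * β ^ 2 ≤ x ^ 2 * β ^ 2 :=
    mul_le_mul_of_nonneg_right (pow_le_pow_left₀ (by positivity) hbx 2) (by positivity)
  have h8 : 0 ≤ (T : ℝ) * b * β := by positivity
  have hx21 : 1 ≤ x ^ 2 := one_le_pow₀ hx1
  have h9 : (T : ℝ) ^ 2 ≤ T ^ 2 * x ^ 2 := le_mul_of_one_le_right (sq_nonneg _) hx21
  have h10 : lam * J ≤ lam * (x ^ 2 + 2 * T) := mul_le_mul_of_nonneg_left hJb hlam.le
  have h11 : lam * T ≤ lam * T * x ^ 2 := le_mul_of_one_le_right (by positivity) hx21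
  have e : (x ^ 2 - b * β + 2 * T) ^ 2 = (x ^ 2) ^ 2 + (b : ℝ) ^ 2 * β ^ 2 + 4 * (T : ℝ) ^ 2
      - 2 * β * x ^ 2 * b + 4 * (T * x ^ 2) - 4 * ((T : ℝ) * b * β) := by ring
  have e2 : (2 * β + β ^ 2 + 4 * T + 4 * T ^ 2 + 2 * lam + 4 * lam * T) * x ^ 2
      = 2 * β * x ^ 2 + x ^ 2 * β ^ 2 + 4 * (T * x ^ 2) + 4 * (T ^ 2 * x ^ 2) + 2 * (lam * x ^ 2)
        + 4 * (lam * T * x ^ 2) := by ring
  have e3 : lam * (x ^ 2 + 2 * T) = lam * x ^ 2 + 2 * (lam * T) := by ring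
  rw [e] at hsq
  rw [e3] at h10
  rw [h6] at h5
  rw [e2]
  linarith

theorem lower (lam ε : ℝ) (hlam : 0 < lam) (hε : 0 < ε) : ∃ k₀ : ℕ, ∀ k : ℕ, k₀ ≤ k →
    ∃ (N M : ℕ) (A : Fin M → Finset ℕ), 0 < M ∧
      (∀ i, A i ⊆ Finset.Icc 1 N ∧ (A i).card = k) ∧
      (∀ d : ℕ, 0 < d → (∑ i, (rr (A i) d : ℝ)) ≤ lam * M) ∧
      lam * N ≤ (k : ℝ) ^ 2 - (4 * √2 / 3 - ε) * (k : ℝ) ^ (3 / 2 : ℝ) := by
  obtain ⟨w, hw1, hw2⟩ : ∃ w : ℕ, 6 ≤ w ∧ 26 / ε ≤ w := by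
    refine ⟨max 6 ⌈26 / ε⌉₊, le_max_left _ _, ?_⟩
    exact (Nat.le_ceil _).trans (by exact_mod_cast le_max_right _ _)
  obtain ⟨C, k₁, hC, h⟩ := lower_w w hw1 lam hlam
  obtain ⟨k₂, hk₂⟩ : ∃ k₂ : ℕ, (2 * C / ε) ^ 2 ≤ k₂ := ⟨⌈(2 * C / ε) ^ 2⌉₊, Nat.le_ceil _⟩
  refine ⟨max k₁ k₂, fun k hk => ?_⟩
  obtain ⟨N, M, A, hM, hA1, hA2, hA3⟩ := h k ((le_max_left _ _).trans hk)
  refine ⟨N, M, A, hM, hA1, hA2, hA3.trans ?_⟩
  rw [rpow_three_half']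
  obtain ⟨x, hx⟩ : ∃ x : ℝ, x = √(k : ℝ) := ⟨_, rfl⟩
  have hx0 : 0 ≤ x := by rw [hx]; positivity
  have hx2 : (k : ℝ) = x ^ 2 := by rw [hx, Real.sq_sqrt (by positivity)]
  have hCx : C ≤ ε / 2 * x := by
    have h2 : 2 * C / ε ≤ x := by
      rw [hx]
      apply Real.le_sqrt_of_sq_le
      have : (k₂ : ℝ) ≤ k := by exact_mod_cast (le_max_right _ _).trans hk
      linarith
    rw [div_le_iff₀ hε] at h2
    linarith
  rw [← hx, hx2]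
  have hw' : (6 : ℝ) ≤ w := by exact_mod_cast hw1
  obtain ⟨s, hs⟩ : ∃ s : ℝ, s = √2 := ⟨_, rfl⟩
  have hs2 : s ^ 2 = 2 := by rw [hs, Real.sq_sqrt (by norm_num)]
  have hs0 : 0 < s := by rw [hs]; positivity
  have hs1 : s < 1.5 := by nlinarith
  -- the square root
  have hr : √((w : ℝ) * (w + 1) / 2) ≤ (w + 1) / s := by
    apply Real.sqrt_le_iff.2
    refine ⟨by positivity, ?_⟩
    rw [div_pow, hs2]
    nlinarith
  have hr0 : 0 < √((w : ℝ) * (w + 1) / 2) := Real.sqrt_pos.2 (by positivity)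
  have hmain : 4 * s / 3 - ε / 2 ≤ 2 * ((2 * (w : ℝ) - 11) / 3) / √((w : ℝ) * (w + 1) / 2) := by
    rw [le_div_iff₀ hr0]
    rcases le_or_gt (4 * s / 3 - ε / 2) 0 with h3 | h3
    · have h4 : (4 * s / 3 - ε / 2) * √((w : ℝ) * (w + 1) / 2) ≤ 0 :=
        mul_nonpos_of_nonpos_of_nonneg h3 hr0.le
      have h5 : 0 ≤ 2 * ((2 * (w : ℝ) - 11) / 3) := by linarith
      linarith
    · have h4 := mul_le_mul_of_nonneg_left hr h3.le
      refine h4.trans ?_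
      have h5 : (4 * s / 3 - ε / 2) * (((w : ℝ) + 1) / s)
          = 4 / 3 * (w + 1) - ε * (w + 1) / (2 * s) := by
        field_simp
      rw [h5]
      have h6 : 26 ≤ ε * ((w : ℝ) + 1) := by
        rw [div_le_iff₀ hε] at hw2
        nlinarith
      have h7 : 26 / 3 ≤ ε * ((w : ℝ) + 1) / (2 * s) := by
        rw [le_div_iff₀ (by positivity)]
        nlinarith
      linarith
  rw [← hs]
  have hx3 : 0 ≤ x ^ 3 := by positivity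
  have h8 := mul_le_mul_of_nonneg_right hmain hx3
  have h9 : C * x ^ 2 ≤ ε / 2 * x ^ 3 := by
    have := mul_le_mul_of_nonneg_right hCx (by positivity : (0 : ℝ) ≤ x ^ 2)
    calc C * x ^ 2 ≤ ε / 2 * x * x ^ 2 := this
      _ = ε / 2 * x ^ 3 := by ring
  linarith

end SidonAvg
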