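import Mathlib
import Pool.Agent.Lib_MP_49858b_nt.Dual

/-!
# MP_49858b_nt, DifferencesOnAverage: definitions used by the pieces

`mz w` is the equilibrium (renewal) sequence of the ramp window of length `w`, normalised to have
limit `1`: it vanishes on the negative integers, `mz w 0 = (w + 1) / 2` and for `i ≥ 1` the value
`mz w i` is the mean of the `w` preceding values. It is `w (w + 1) / 2` times the sequence `f` of
`Pool.Agent.Lib_MP_49858b_nt.Renewal`.
-/

set_option autoImplicit false

open Finset

namespace SidonAvg

/-- the renewal sequence with limit `1` (zero on the negative integers) -/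
noncomputable def mz (w : ℕ) (i : ℤ) : ℝ := (w : ℝ) * (w + 1) / 2 * MP49858b.f w i

/-- the regularised autocorrelation of the renewal sequence -/
noncomputable def AA (w : ℕ) (q : ℕ) : ℝ := ∑' j : ℕ, (mz w j * mz w ((j : ℤ) + q) - 1)

/-- the number of pairs of elements of `A` with difference `d` -/
def rr (A : Finset ℕ) (d : ℕ) : ℕ := (A.filter (fun x => x + d ∈ A)).card

end SidonAvg
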