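import Pool.Agent.Lib_MP_49858b_av.Base

/-!
# Piece SA-Blk1: random block sets, pair averages

`Om J L = Fin J → Equiv.Perm (Fin L)` is the index set. For `ω` the set `blk n ω` consists of the places
`(j, x)` with `(ω j)⁻¹ x < n j`: exactly `n j` places in the `j`-th block.
-/

set_option autoImplicit false

open Finset

namespace SidonAvg

/-- index set of the family -/
abbrev Om (J L : ℕ) : Type := Fin J → Equiv.Perm (Fin L)

/-- the places chosen by `ω` -/
noncomputable def blk {J L : ℕ} (n : ℕ → ℕ) (ω : Om J L) : Finset (Fin J × Fin L) :=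
  univ.filter (fun p => (((ω p.1).symm p.2 : Fin L) : ℕ) < n p.1)

private theorem mem_blk {J L : ℕ} (n : ℕ → ℕ) (ω : Om J L) (p : Fin J × Fin L) :
    p ∈ blk n ω ↔ (((ω p.1).symm p.2 : Fin L) : ℕ) < n p.1 := by
  simp [blk]

private theorem card_val_lt (L m : ℕ) (h : m ≤ L) :
    (univ.filter (fun x : Fin L => (x : ℕ) < m)).card = m := by
  have h1 : (univ.filter (fun x : Fin L => (x : ℕ) < m)).map Fin.valEmbedding = range m := by
    ext a
    simp only [mem_map, mem_filter, mem_univ, true_and, Fin.valEmbedding_apply, mem_range]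
    constructor
    · rintro ⟨x, hx, rfl⟩
      exact hx
    · intro ha
      exact ⟨⟨a, by omega⟩, ha, rfl⟩
  rw [← card_map Fin.valEmbedding, h1, card_range]

/-- number of places in one block: the bijection `(ω j).symm`. -/
theorem blk_block {J L : ℕ} (n : ℕ → ℕ) (hn : ∀ j, j < J → n j ≤ L) (ω : Om J L) (j : Fin J) :
    (univ.filter (fun x : Fin L => (j, x) ∈ blk n ω)).card = n j := by
  rw [← card_val_lt L (n j) (hn j j.2)]
  apply Finset.card_equiv (ω j).symm
  intro x
  simp only [mem_filter, mem_univ, true_and, mem_blk]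

/-- sum of `blk_block` over `j` -/
theorem blk_card {J L : ℕ} (n : ℕ → ℕ) (hn : ∀ j, j < J → n j ≤ L) (ω : Om J L) :
    (blk n ω).card = ∑ j ∈ range J, n j := by
  have h1 : (blk n ω).card = ∑ p : Fin J × Fin L, if p ∈ blk n ω then 1 else 0 := by
    rw [Finset.sum_boole]
    simp
  rw [h1, Fintype.sum_prod_type, Finset.sum_range]
  apply Finset.sum_congr rfl
  intro j _
  rw [← blk_block n hn ω j, Finset.card_filter]

/-- number of `ω` whose set contains two given places -/
noncomputable def NN {J L : ℕ} (n : ℕ → ℕ) (p p' : Fin J × Fin L) : ℕ :=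
  (univ.filter (fun ω : Om J L => p ∈ blk n ω ∧ p' ∈ blk n ω)).card

/-- invariance: for `τ : Om J L` the map `ω ↦ fun j => τ j * ω j` is a bijection of `Om J L`, and
`(j, τ j x) ∈ blk n (τ * ω) ↔ (j, x) ∈ blk n ω`. -/
theorem NN_inv {J L : ℕ} (n : ℕ → ℕ) (τ : Om J L) (p p' : Fin J × Fin L) :
    NN n (p.1, τ p.1 p.2) (p'.1, τ p'.1 p'.2) = NN n p p' := by
  symm
  apply Finset.card_equiv (Equiv.mulLeft τ)
  intro ω
  have key : ∀ q : Fin J × Fin L, (q.1, τ q.1 q.2) ∈ blk n (τ * ω) ↔ q ∈ blk n ω := by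
    intro q
    rw [mem_blk, mem_blk]
    change (((τ q.1 * ω q.1).symm (τ q.1 q.2) : Fin L) : ℕ) < n q.1 ↔ _
    rw [Equiv.Perm.mul_def, Equiv.symm_trans_apply, Equiv.symm_apply_apply]
  simp only [mem_filter, mem_univ, true_and, Equiv.coe_mulLeft, key]

/-- two places in different blocks: by `NN_inv` all `L * L` pairs of places in the blocks `j`, `j'` have the same
`NN` (choose `τ j` a swap and `τ j'` a swap), and the sum of `NN` over all of them is `card Om * n j * n j'`
(exchange the sums, `blk_block`). -/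
theorem NN_ne {J L : ℕ} (n : ℕ → ℕ) (hn : ∀ j, j < J → n j ≤ L) (p p' : Fin J × Fin L)
    (h : p.1 ≠ p'.1) :
    NN n p p' * (L * L) = Fintype.card (Om J L) * (n p.1 * n p'.1) := by
  have h1 : ∀ x x' : Fin L, NN n (p.1, x) (p'.1, x') = NN n p p' := by
    intro x x'
    have h2 := NN_inv n (fun i => if i = p.1 then Equiv.swap p.2 x else Equiv.swap p'.2 x') p p'
    simp only [if_neg (Ne.symm h), if_true, Equiv.swap_apply_left] at h2
    exact h2
  have h3 : ∑ x : Fin L, ∑ x' : Fin L, NN n (p.1, x) (p'.1, x') = NN n p p' * (L * L) := by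
    simp only [h1, sum_const, card_univ, Fintype.card_fin, smul_eq_mul]
    ring
  have h4 : ∀ x x' : Fin L, NN n (p.1, x) (p'.1, x') = ∑ ω : Om J L,
      (if (p.1, x) ∈ blk n ω then 1 else 0) * (if (p'.1, x') ∈ blk n ω then 1 else 0) := by
    intro x x'
    unfold NN
    rw [Finset.card_filter]
    apply Finset.sum_congr rfl
    intro ω _
    by_cases ha : (p.1, x) ∈ blk n ω <;> by_cases hb : (p'.1, x') ∈ blk n ω <;> simp [ha, hb]
  rw [← h3]
  simp only [h4]
  have h5 : ∀ x : Fin L, (∑ x' : Fin L, ∑ ω : Om J L,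
      (if (p.1, x) ∈ blk n ω then 1 else 0) * (if (p'.1, x') ∈ blk n ω then 1 else 0)) =
      ∑ ω : Om J L, (if (p.1, x) ∈ blk n ω then 1 else 0) * n p'.1 := by
    intro x
    rw [Finset.sum_comm]
    apply Finset.sum_congr rfl
    intro ω _
    rw [← Finset.mul_sum, ← Finset.card_filter, blk_block n hn ω]
  simp only [h5]
  rw [Finset.sum_comm]
  have h6 : ∀ ω : Om J L, (∑ x : Fin L, (if (p.1, x) ∈ blk n ω then 1 else 0) * n p'.1) =
      n p.1 * n p'.1 := by
    intro ω
    rw [← Finset.sum_mul, ← Finset.card_filter, blk_block n hn ω]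
  simp only [h6, sum_const, card_univ, smul_eq_mul]

/-- two different places in the same block: all `L * (L-1)` ordered pairs of different places have the same `NN`
(a permutation with `x ↦ x'`, `y ↦ y'`: `swap (swap x x' y) y' * swap x x'`), and their sum is
`card Om * n j * (n j - 1)`. -/
theorem NN_eq {J L : ℕ} (n : ℕ → ℕ) (hn : ∀ j, j < J → n j ≤ L) (j : Fin J) (x y : Fin L)
    (h : x ≠ y) :
    NN n (j, x) (j, y) * (L * (L - 1)) = Fintype.card (Om J L) * (n j * (n j - 1)) := by
  have h1 : ∀ x' y' : Fin L, x' ≠ y' → NN n (j, x') (j, y') = NN n (j, x) (j, y) := by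
    intro x' y' h'
    have h2 := NN_inv n (fun _ => Equiv.swap (Equiv.swap x x' y) y' * Equiv.swap x x') (j, x) (j, y)
    have h3 : (Equiv.swap (Equiv.swap x x' y) y' * Equiv.swap x x') x = x' := by
      rw [Equiv.Perm.mul_apply, Equiv.swap_apply_left]
      apply Equiv.swap_apply_of_ne_of_ne
      · intro h4
        apply h
        have h5 : Equiv.swap x x' x = Equiv.swap x x' y := by
          rw [Equiv.swap_apply_left]
          exact h4
        exact (Equiv.swap x x').injective h5
      · exact h'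
    have h4 : (Equiv.swap (Equiv.swap x x' y) y' * Equiv.swap x x') y = y' := by
      rw [Equiv.Perm.mul_apply, Equiv.swap_apply_left]
    simp only [h3, h4] at h2
    exact h2
  have h3 : ∑ q ∈ (univ : Finset (Fin L)).offDiag, NN n (j, q.1) (j, q.2) =
      NN n (j, x) (j, y) * (L * (L - 1)) := by
    have h4 : ∀ q ∈ (univ : Finset (Fin L)).offDiag, NN n (j, q.1) (j, q.2) =
        NN n (j, x) (j, y) := by
      intro q hq
      exact h1 _ _ (Finset.mem_offDiag.1 hq).2.2
    rw [Finset.sum_congr rfl h4, sum_const, smul_eq_mul, Finset.offDiag_card, card_univ,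
      Fintype.card_fin, Nat.mul_sub, mul_one, mul_comm]
  rw [← h3]
  have h5 : ∀ q : Fin L × Fin L, NN n (j, q.1) (j, q.2) = ∑ ω : Om J L,
      if (j, q.1) ∈ blk n ω ∧ (j, q.2) ∈ blk n ω then 1 else 0 := by
    intro q
    unfold NN
    rw [Finset.card_filter]
  simp only [h5]
  rw [Finset.sum_comm]
  have h6 : ∀ ω : Om J L, (∑ q ∈ (univ : Finset (Fin L)).offDiag,
      if (j, q.1) ∈ blk n ω ∧ (j, q.2) ∈ blk n ω then 1 else 0) = n j * (n j - 1) := by
    intro ω
    rw [← Finset.card_filter]
    have h7 : (univ : Finset (Fin L)).offDiag.filter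
        (fun q => (j, q.1) ∈ blk n ω ∧ (j, q.2) ∈ blk n ω) =
        (univ.filter (fun z : Fin L => (j, z) ∈ blk n ω)).offDiag := by
      ext q
      simp only [mem_filter, mem_offDiag, mem_univ, true_and]
      tauto
    rw [h7, Finset.offDiag_card, blk_block n hn ω, Nat.mul_sub, mul_one]
  simp only [h6, sum_const, card_univ, smul_eq_mul]

end SidonAvg
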