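import Pool.Agent.Lib_MP_49858b_av.Base

/-!
# Piece SA-Seq1: elementary facts about the renewal sequence

All facts come from `Pool.Agent.Lib_MP_49858b_nt.Renewal` (read it first): `f_neg`, `step_f`,
`conv_eq`, `f_zero`, `abs_g_decay`, `cc_mul` (`cc w * (w (w+1)/2) = 1`, so
`mz w i - 1 = w (w+1)/2 * g w i`), `sum_weights`, and `sum_T` in `Dual.lean`.
-/

set_option autoImplicit false

open Finset

namespace SidonAvg

/-- `f_neg` -/
theorem mz_neg (w : ℕ) {i : ℤ} (hi : i < 0) : mz w i = 0 := by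
  unfold mz
  rw [MP49858b.f_neg w hi, mul_zero]

/-- `f_zero` -/
theorem mz_zero (w : ℕ) (hw : 0 < w) : mz w 0 = ((w : ℝ) + 1) / 2 := by
  have hw' : (0 : ℝ) < w := by exact_mod_cast hw
  unfold mz
  rw [MP49858b.f_zero w hw]
  field_simp

/-- `step_f` -/
theorem mz_step (w : ℕ) (hw : 0 < w) {i : ℤ} (hi : 1 ≤ i) :
    (w : ℝ) * mz w i = ∑ j ∈ range w, mz w (i - 1 - j) := by
  unfold mz
  rw [← Finset.mul_sum, ← MP49858b.step_f w hw hi]
  ring

/-- `conv_eq` -/
theorem mz_conv (w : ℕ) (hw : 0 < w) {i : ℤ} (hi : 0 ≤ i) :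
    ∑ j ∈ range w, ((w : ℝ) - j) * mz w (i - j) = (w : ℝ) * (w + 1) / 2 := by
  have h1 := MP49858b.conv_eq w hw hi
  have h2 : ∑ j ∈ range w, ((w : ℝ) - j) * mz w (i - j) =
      (w : ℝ) * (w + 1) / 2 * ∑ j ∈ range w, ((w : ℝ) - j) * MP49858b.f w (i - j) := by
    rw [Finset.mul_sum]
    refine Finset.sum_congr rfl fun j _ => ?_
    unfold mz
    ring
  rw [h2, h1, mul_one]

private theorem Seq1_both (w : ℕ) (hw : 0 < w) (n : ℕ) :
    0 ≤ mz w n ∧ mz w n ≤ ((w : ℝ) + 1) / 2 := by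
  have hw' : (0 : ℝ) < w := by exact_mod_cast hw
  induction n using Nat.strong_induction_on with
  | _ n ih =>
    rcases Nat.eq_zero_or_pos n with rfl | hn
    · have h0 := mz_zero w hw
      rw [Nat.cast_zero, h0]
      exact ⟨by positivity, le_rfl⟩
    · have h1 := mz_step w hw (i := (n : ℤ)) (by omega)
      have h2 : ∀ j ∈ range w, 0 ≤ mz w ((n : ℤ) - 1 - j) ∧
          mz w ((n : ℤ) - 1 - j) ≤ ((w : ℝ) + 1) / 2 := by
        intro j _
        by_cases hj : (n : ℤ) - 1 - j < 0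
        · rw [mz_neg w hj]
          exact ⟨le_rfl, by positivity⟩
        · obtain ⟨m, hm⟩ := Int.eq_ofNat_of_zero_le (not_lt.1 hj)
          rw [hm]
          exact ih m (by omega)
      have h3 : 0 ≤ (w : ℝ) * mz w n := by
        rw [h1]
        exact Finset.sum_nonneg fun j hj => (h2 j hj).1
      have h4 : (w : ℝ) * mz w n ≤ (w : ℝ) * (((w : ℝ) + 1) / 2) := by
        rw [h1]
        refine (Finset.sum_le_sum fun j hj => (h2 j hj).2).trans ?_
        rw [Finset.sum_const, Finset.card_range, nsmul_eq_mul]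
      exact ⟨nonneg_of_mul_nonneg_right h3 hw', le_of_mul_le_mul_left h4 hw'⟩

/-- Strong induction on `i.toNat`: `mz_neg`, `mz_zero`, and for `i ≥ 1` the mean of nonnegative numbers. -/
theorem mz_nonneg (w : ℕ) (hw : 0 < w) (i : ℤ) : 0 ≤ mz w i := by
  by_cases hi : i < 0
  · rw [mz_neg w hi]
  · obtain ⟨m, rfl⟩ := Int.eq_ofNat_of_zero_le (not_lt.1 hi)
    exact (Seq1_both w hw m).1

/-- The same induction: the mean of `w` numbers `≤ (w+1)/2`. -/
theorem mz_le (w : ℕ) (hw : 0 < w) (i : ℤ) : mz w i ≤ ((w : ℝ) + 1) / 2 := by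
  by_cases hi : i < 0
  · rw [mz_neg w hi]
    positivity
  · obtain ⟨m, rfl⟩ := Int.eq_ofNat_of_zero_le (not_lt.1 hi)
    exact (Seq1_both w hw m).2

private theorem Seq1_sub (w : ℕ) (hw : 0 < w) (i : ℤ) :
    mz w i - 1 = (w : ℝ) * (w + 1) / 2 * MP49858b.g w i := by
  have h1 := MP49858b.cc_mul w hw
  unfold mz MP49858b.g
  rw [mul_sub, mul_comm _ (MP49858b.cc w), h1]

/-- From `abs_g_decay`: for `j ≥ 1` with `r = (j - 1) / w` one has `|g w j| ≤ (2 / w^2) (1/2)^r`;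
compare with a geometric series (for instance `Summable` of `fun j => (1/2)^(j / w)`, or use
`(1/2)^((j-1)/w) ≤ 2 * ((1/2)^(1/w))^(j-1)`...). -/
theorem summable_mu (w : ℕ) (hw : 0 < w) : Summable (fun j : ℕ => |mz w j - 1|) := by
  have hw' : (1 : ℝ) ≤ w := by exact_mod_cast hw
  rw [← summable_nat_add_iff 1]
  set ρ : ℝ := 1 - 1 / (2 * w) with hρ
  have hρ1 : ρ < 1 := by
    have : 0 < 1 / (2 * (w : ℝ)) := by positivity
    linarith
  have hρ0 : 0 < ρ := by
    have : 1 / (2 * (w : ℝ)) ≤ 1 / 2 := by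
      apply one_div_le_one_div_of_le (by norm_num)
      linarith
    linarith
  have hρw : 1 / 2 ≤ ρ ^ w := by
    have h1 := one_add_mul_le_pow (a := -(1 / (2 * (w : ℝ)))) (by
      have : 1 / (2 * (w : ℝ)) ≤ 1 / 2 := by
        apply one_div_le_one_div_of_le (by norm_num)
        linarith
      linarith) w
    have h2 : (1 : ℝ) + w * -(1 / (2 * (w : ℝ))) = 1 / 2 := by
      field_simp
      ring
    rw [h2] at h1
    have h3 : (1 : ℝ) + -(1 / (2 * (w : ℝ))) = ρ := by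
      rw [hρ]
      ring
    rwa [h3] at h1
  have hgeo : ∀ j : ℕ, (1 / 2 : ℝ) ^ (j / w) ≤ 2 * ρ ^ j := by
    intro j
    have h1 : (1 / 2 : ℝ) ^ (j / w) ≤ (ρ ^ w) ^ (j / w) := pow_le_pow_left₀ (by norm_num) hρw _
    have h2 : ρ ^ (w * (j / w) + w) ≤ ρ ^ j := by
      refine pow_le_pow_of_le_one hρ0.le hρ1.le ?_
      have h3 := Nat.div_add_mod j w
      have h4 := Nat.mod_lt j hw
      omega
    rw [pow_add] at h2
    rw [← pow_mul] at h1
    have h5 : 0 ≤ ρ ^ (w * (j / w)) := pow_nonneg hρ0.le _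
    nlinarith
  have hsum : Summable fun j : ℕ => ((w : ℝ) * (w + 1) / 2) * (2 / (w : ℝ) ^ 2 * (2 * ρ ^ j)) := by
    refine Summable.mul_left _ (Summable.mul_left _ (Summable.mul_left _ ?_))
    exact summable_geometric_of_lt_one hρ0.le hρ1
  refine Summable.of_nonneg_of_le (fun j => abs_nonneg _) (fun j => ?_) hsum
  rw [Seq1_sub w hw, abs_mul, abs_of_nonneg (by positivity : (0 : ℝ) ≤ (w : ℝ) * (w + 1) / 2)]
  refine mul_le_mul_of_nonneg_left ?_ (by positivity)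
  have h1 := MP49858b.abs_g_decay w hw (j / w) (((j + 1 : ℕ) : ℤ)) (by
    have h2 : j / w * w ≤ j := Nat.div_mul_le_self j w
    have h3 : ((j / w : ℕ) : ℤ) * (w : ℤ) ≤ (j : ℤ) := by exact_mod_cast h2
    push_cast at h3 ⊢
    linarith)
  refine h1.trans ?_
  exact mul_le_mul_of_nonneg_left (hgeo j) (by positivity)

/-- Shift: for `t : ℕ` the sum over `j : ℕ` of `mz w (j - t) - 1` is `(∑' (mz w j - 1)) - t` (the first `t`
terms are `-1`; `Summable.sum_add_tsum_nat_add`). Summability is part of the statement. -/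
theorem shift_mu (w : ℕ) (hw : 0 < w) (t : ℕ) :
    Summable (fun j : ℕ => mz w ((j : ℤ) - t) - 1) ∧
      ∑' j : ℕ, (mz w ((j : ℤ) - t) - 1) = (∑' j : ℕ, (mz w j - 1)) - t := by
  induction t with
  | zero =>
    simp only [Nat.cast_zero, sub_zero]
    exact ⟨(summable_mu w hw).of_abs, trivial⟩
  | succ t ih =>
    obtain ⟨h1, h2⟩ := ih
    have h3 : (fun j : ℕ => mz w (((j + 1 : ℕ) : ℤ) - ((t + 1 : ℕ) : ℤ)) - 1) =
        fun j : ℕ => mz w ((j : ℤ) - t) - 1 := by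
      funext j
      congr 2
      push_cast
      ring
    have h4 : Summable (fun j : ℕ => mz w ((j : ℤ) - ((t + 1 : ℕ) : ℤ)) - 1) := by
      rw [← summable_nat_add_iff 1, h3]
      exact h1
    refine ⟨h4, ?_⟩
    rw [h4.tsum_eq_zero_add, h3, h2, mz_neg w (by push_cast; omega)]
    push_cast
    ring

/-- Sum `mz_conv` minus its limit over `i = 0, 1, 2, ...`: `0 = ∑_{t<w} (w - t) (M - t)` by `shift_mu`, where
`M = ∑' (mz w j - 1)`; use `sum_weights` and `sum_T` of the library. -/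
theorem tsum_mu (w : ℕ) (hw : 0 < w) : ∑' j : ℕ, (mz w j - 1) = ((w : ℝ) - 1) / 3 := by
  have hw' : (1 : ℝ) ≤ w := by exact_mod_cast hw
  set M := ∑' j : ℕ, (mz w j - 1) with hM
  have h1 : ∀ j : ℕ, ∑ t ∈ range w, ((w : ℝ) - t) * (mz w ((j : ℤ) - t) - 1) = 0 := by
    intro j
    simp only [mul_sub, mul_one]
    rw [Finset.sum_sub_distrib, mz_conv w hw (Int.natCast_nonneg j)]
    have h2 := MP49858b.sum_weights w
    rw [h2, sub_self]
  have h2 : ∑' j : ℕ, ∑ t ∈ range w, ((w : ℝ) - t) * (mz w ((j : ℤ) - t) - 1) =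
      ∑ t ∈ range w, ∑' j : ℕ, ((w : ℝ) - t) * (mz w ((j : ℤ) - t) - 1) :=
    Summable.tsum_finsetSum fun t _ => (shift_mu w hw t).1.mul_left _
  have h3 : ∑ t ∈ range w, ((w : ℝ) - t) * (M - t) = 0 := by
    rw [← tsum_zero (α := ℝ) (β := ℕ), ← tsum_congr h1, h2]
    refine Finset.sum_congr rfl fun t _ => ?_
    rw [tsum_mul_left, (shift_mu w hw t).2]
  have h4 : ∑ t ∈ range w, ((w : ℝ) - t) * (M - t) =
      (w : ℝ) * (w + 1) / 2 * M - ((w : ℝ) - 1) * w * (w + 1) / 6 := by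
    rw [← MP49858b.sum_T, ← MP49858b.sum_weights, Finset.sum_mul, ← Finset.sum_sub_distrib]
    refine Finset.sum_congr rfl fun t _ => ?_
    ring
  rw [h4] at h3
  have h5 : (w : ℝ) * (w + 1) / 2 ≠ 0 := by positivity
  have h6 : (w : ℝ) * (w + 1) / 2 * M = (w : ℝ) * (w + 1) / 2 * (((w : ℝ) - 1) / 3) := by
    linear_combination h3
  exact mul_left_cancel₀ h5 h6

end SidonAvg
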