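import Pool.Agent.Lib_MP_49858b_av.Seq1

/-!
# Piece SA-Seq2: the recursion for the autocorrelation
-/

set_option autoImplicit false

open Finset

namespace SidonAvg

/-- `|x y - 1| ≤ |x - 1| + |x| |y - 1|` with `0 ≤ mz ≤ (w+1)/2` and `summable_mu` (shifted). -/
theorem summable_AA (w : ℕ) (hw : 0 < w) (q : ℕ) :
    Summable (fun j : ℕ => mz w j * mz w ((j : ℤ) + q) - 1) := by
  have h1 := summable_mu w hw
  have h2 : Summable (fun j : ℕ => |mz w ((j : ℤ) + q) - 1|) := by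
    have h := (summable_nat_add_iff (f := fun j : ℕ => |mz w j - 1|) q).2 h1
    refine h.congr fun j => ?_
    rw [Nat.cast_add]
  refine Summable.of_norm_bounded (h1.add (h2.mul_left (((w : ℝ) + 1) / 2))) fun j => ?_
  rw [Real.norm_eq_abs]
  have hx0 := mz_nonneg w hw j
  have hx1 := mz_le w hw j
  have h3 : mz w j * mz w ((j : ℤ) + q) - 1 = (mz w j - 1) + mz w j * (mz w ((j : ℤ) + q) - 1) := by
    ring
  rw [h3]
  refine (abs_add_le _ _).trans (add_le_add le_rfl ?_)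
  rw [abs_mul, abs_of_nonneg hx0]
  exact mul_le_mul_of_nonneg_right hx1 (abs_nonneg _)

/-- The first `t` terms are `-1` (`mz_neg`), the rest is the series of `AA w t`
(`Summable.sum_add_tsum_nat_add`). Summability is part of the statement. -/
theorem shift_AA (w : ℕ) (hw : 0 < w) (t : ℕ) :
    Summable (fun j : ℕ => mz w j * mz w ((j : ℤ) - t) - 1) ∧
      ∑' j : ℕ, (mz w j * mz w ((j : ℤ) - t) - 1) = AA w t - t := by
  have h0 : ∀ j : ℕ, mz w ((j + t : ℕ) : ℤ) * mz w (((j + t : ℕ) : ℤ) - t) - 1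
      = mz w j * mz w ((j : ℤ) + t) - 1 := fun j => by
    rw [Nat.cast_add, add_sub_cancel_right, mul_comm]
  have hs : Summable (fun j : ℕ => mz w j * mz w ((j : ℤ) - t) - 1) := by
    rw [← summable_nat_add_iff t]
    exact (summable_AA w hw t).congr fun j => (h0 j).symm
  refine ⟨hs, ?_⟩
  rw [← hs.sum_add_tsum_nat_add t]
  have h1 : ∑ j ∈ range t, (mz w j * mz w ((j : ℤ) - t) - 1) = -(t : ℝ) := by
    rw [Finset.sum_congr rfl (g := fun _ => (-1 : ℝ))]
    · rw [Finset.sum_const, Finset.card_range, nsmul_eq_mul, mul_neg, mul_one]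
    · intro j hj
      rw [Finset.mem_range] at hj
      rw [mz_neg w (by omega : (j : ℤ) - t < 0), mul_zero, zero_sub]
  rw [h1, tsum_congr h0]
  unfold AA
  ring

/-- Multiply `mz_step` at `i = j + q` (`≥ 1`) by `mz w j` and sum over `j`: the term of index `i` (the
function `j ↦ mz w j * mz w (j + q - 1 - i) - 1`) sums to `AA w (q - (i+1))` if `i + 1 ≤ q` and to
`AA w (i + 1 - q) - (i + 1 - q)` otherwise (`shift_AA`). -/
theorem AA_rec (w : ℕ) (hw : 0 < w) (q : ℕ) (hq : 1 ≤ q) :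
    (w : ℝ) * AA w q = ∑ i ∈ range w,
      (if i + 1 ≤ q then AA w (q - (i + 1)) else AA w (i + 1 - q) - ((i : ℝ) + 1 - q)) := by
  have key : ∀ i : ℕ, Summable (fun j : ℕ => mz w j * mz w ((j : ℤ) + q - 1 - i) - 1) ∧
      ∑' j : ℕ, (mz w j * mz w ((j : ℤ) + q - 1 - i) - 1) =
        (if i + 1 ≤ q then AA w (q - (i + 1)) else AA w (i + 1 - q) - ((i : ℝ) + 1 - q)) := by
    intro i
    by_cases h : i + 1 ≤ q
    · have h1 : ∀ j : ℕ, (j : ℤ) + q - 1 - i = (j : ℤ) + ((q - (i + 1) : ℕ) : ℤ) := fun j => by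
        omega
      rw [if_pos h]
      simp only [h1]
      exact ⟨summable_AA w hw _, rfl⟩
    · have h1 : ∀ j : ℕ, (j : ℤ) + q - 1 - i = (j : ℤ) - ((i + 1 - q : ℕ) : ℤ) := fun j => by
        omega
      have h2 : ((i + 1 - q : ℕ) : ℝ) = (i : ℝ) + 1 - q := by
        rw [Nat.cast_sub (by omega)]
        push_cast
        ring
      rw [if_neg h, ← h2]
      simp only [h1]
      exact shift_AA w hw _
  have hstep : ∀ j : ℕ, (w : ℝ) * (mz w j * mz w ((j : ℤ) + q) - 1) =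
      ∑ i ∈ range w, (mz w j * mz w ((j : ℤ) + q - 1 - i) - 1) := by
    intro j
    have h1 := mz_step w hw (i := (j : ℤ) + q) (by omega)
    rw [Finset.sum_sub_distrib, ← Finset.mul_sum, ← h1, Finset.sum_const, Finset.card_range,
      nsmul_eq_mul]
    ring
  unfold AA
  rw [← tsum_mul_left, tsum_congr hstep, Summable.tsum_finsetSum fun i _ => (key i).1]
  exact Finset.sum_congr rfl fun i _ => (key i).2

/-- Multiply `mz_conv` at `i = j` by `mz w j`, subtract `w (w+1)/2` and sum over `j`: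
`∑_{t<w} (w - t) (AA w t - t) = w (w+1)/2 * M`, `M = (w-1)/3`. -/
theorem AA_conv (w : ℕ) (hw : 0 < w) :
    ∑ t ∈ range w, ((w : ℝ) - t) * (AA w t - t) = (w : ℝ) * (w + 1) / 2 * (((w : ℝ) - 1) / 3) := by
  have hstep : ∀ j : ℕ, ∑ t ∈ range w, ((w : ℝ) - t) * (mz w j * mz w ((j : ℤ) - t) - 1) =
      (w : ℝ) * (w + 1) / 2 * (mz w j - 1) := by
    intro j
    have h1 := mz_conv w hw (i := (j : ℤ)) (Int.natCast_nonneg j)
    have h2 : ∑ t ∈ range w, ((w : ℝ) - t) * (mz w j * mz w ((j : ℤ) - t) - 1) =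
        mz w j * ∑ t ∈ range w, ((w : ℝ) - t) * mz w ((j : ℤ) - t) - ∑ t ∈ range w, ((w : ℝ) - t) := by
      rw [Finset.mul_sum, ← Finset.sum_sub_distrib]
      exact Finset.sum_congr rfl fun t _ => by ring
    rw [h2, h1, MP49858b.sum_weights]
    ring
  rw [← tsum_mu w hw, ← tsum_mul_left, ← tsum_congr hstep,
    Summable.tsum_finsetSum fun t _ => (shift_AA w hw t).1.mul_left _]
  exact Finset.sum_congr rfl fun t _ => by rw [tsum_mul_left, (shift_AA w hw t).2]

end SidonAvg
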