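import Pool.Agent.Lib_MP_49858b_av.Seq2

/-!
# Piece SA-Seq3: the autocorrelation is affine on `1..w` (maximum principle)
-/

set_option autoImplicit false

open Finset

namespace SidonAvg

/-- the sum of the first natural numbers -/
private theorem sum_id (n : ℕ) : ∑ i ∈ range n, (i : ℝ) = (n : ℝ) * (n - 1) / 2 := by
  induction n with
  | zero => simp
  | succ k ih => rw [sum_range_succ, ih]; push_cast; ring

/-- the sum of the first squares -/
private theorem sum_sq (n : ℕ) :
    ∑ i ∈ range n, (i : ℝ) * i = (n : ℝ) * (n - 1) * (2 * n - 1) / 6 := by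
  induction n with
  | zero => simp
  | succ k ih => rw [sum_range_succ, ih]; push_cast; ring

/-- the linear part of the recursion -/
private theorem sum_lin (w : ℕ) (q : ℝ) :
    ∑ i ∈ range w, ((q - ((i : ℝ) + 1)) / 2) = (w : ℝ) * q / 2 - (w : ℝ) * (w + 1) / 4 := by
  have h1 : ∀ i ∈ range w, ((q - ((i : ℝ) + 1)) / 2) = (q - 1) / 2 - (1 / 2) * (i : ℝ) := by
    intro i _; ring
  rw [sum_congr rfl h1, sum_sub_distrib, ← mul_sum, sum_id, sum_const, card_range, nsmul_eq_mul]
  ring

/-- the maximum principle -/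
private theorem max_aux (w : ℕ) (C : ℕ → ℝ)
    (h : ∀ q, 1 ≤ q → q ≤ w → (w : ℝ) * C q = ∑ i ∈ range w, C ((q - (i + 1)) + (i + 1 - q))) :
    ∀ q, q ≤ w → C q ≤ C 0 := by
  obtain ⟨m, hm, hmax⟩ := Finset.exists_max_image (range (w + 1)) C ⟨0, by simp⟩
  have hmw : m ≤ w := by
    have := mem_range.mp hm
    omega
  have hm0 : C m = C 0 := by
    rcases Nat.eq_zero_or_pos m with h0 | hpos
    · rw [h0]
    · have hs := h m hpos hmw
      have h2 : ∑ i ∈ range w, (C m - C ((m - (i + 1)) + (i + 1 - m))) = 0 := by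
        rw [sum_sub_distrib, sum_const, card_range, nsmul_eq_mul, hs, sub_self]
      have h3 : ∀ i ∈ range w, 0 ≤ C m - C ((m - (i + 1)) + (i + 1 - m)) := by
        intro i hi
        have hi' := mem_range.mp hi
        have := hmax ((m - (i + 1)) + (i + 1 - m)) (mem_range.mpr (by omega))
        linarith
      have h4 := (sum_eq_zero_iff_of_nonneg h3).mp h2 (m - 1) (mem_range.mpr (by omega))
      have h5 : (m - (m - 1 + 1)) + (m - 1 + 1 - m) = 0 := by omega
      rw [h5] at h4
      linarith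
  intro q hq
  rw [← hm0]
  exact hmax q (mem_range.mpr (by omega))

/-- Pure algebra. Let `C 0 = a 0 - w (w+1)/4` and `C q = a q - q/2` for `q ≥ 1`. For `1 ≤ q ≤ w` the hypothesis
says `w * C q = ∑_{i<w} C |q - (i+1)|` (the summand `i + 1 = q` is `C 0 + w (w+1)/4`, the other ones are
`C |q-i-1| + (q - i - 1)/2`, and `∑_{i<w} (q - (i+1))/2 = w q/2 - w (w+1)/4`). Take `q0` in `0..w` with `C q0`
maximal (`Finset.exists_max_image`); if `q0 ≥ 1` all the `w` values in the sum are `≤ C q0`, so all are equal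
to `C q0`, in particular `C 0` (`i + 1 = q0`). So `C 0` is the maximum, in the same way the minimum, and `C` is
constant on `0..w`. -/
theorem affine_of_rec (w : ℕ) (hw : 0 < w) (a : ℕ → ℝ)
    (h : ∀ q, 1 ≤ q → q ≤ w → (w : ℝ) * a q = ∑ i ∈ range w,
      (if i + 1 ≤ q then a (q - (i + 1)) else a (i + 1 - q) - ((i : ℝ) + 1 - q))) :
    ∀ q, 1 ≤ q → q ≤ w → a q = a 0 - (w : ℝ) * (w + 1) / 4 + q / 2 := by
  have _ := hw
  set s : ℝ := (w : ℝ) * (w + 1) / 4 with hs
  let C : ℕ → ℝ := fun q => a q - (q : ℝ) / 2 - (if q = 0 then s else 0)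
  have hC : ∀ q, 1 ≤ q → q ≤ w →
      (w : ℝ) * C q = ∑ i ∈ range w, C ((q - (i + 1)) + (i + 1 - q)) := by
    intro q hq1 hqw
    have hT : ∀ i ∈ range w,
        (if i + 1 ≤ q then a (q - (i + 1)) else a (i + 1 - q) - ((i : ℝ) + 1 - q)) =
          C ((q - (i + 1)) + (i + 1 - q)) + ((q : ℝ) - ((i : ℝ) + 1)) / 2 +
            (if i = q - 1 then s else 0) := by
      intro i _
      rcases lt_trichotomy (i + 1) q with hlt | heq | hgt
      · have e1 : (q - (i + 1)) + (i + 1 - q) = q - (i + 1) := by omega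
        have e2 : q - (i + 1) ≠ 0 := by omega
        have e3 : i ≠ q - 1 := by omega
        have e4 : ((q - (i + 1) : ℕ) : ℝ) = (q : ℝ) - ((i : ℝ) + 1) := by
          rw [Nat.cast_sub hlt.le]; push_cast; ring
        rw [if_pos hlt.le, e1]
        simp only [C, if_neg e2, if_neg e3, e4]
        ring
      · have e1 : (q - (i + 1)) + (i + 1 - q) = 0 := by omega
        have e2 : q - (i + 1) = 0 := by omega
        have e3 : i = q - 1 := by omega
        have e4 : (q : ℝ) = (i : ℝ) + 1 := by rw [← heq]; push_cast; ring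
        rw [if_pos heq.le, e1, e2, if_pos e3]
        simp only [C, if_true]
        rw [e4]
        push_cast
        ring
      · have e1 : (q - (i + 1)) + (i + 1 - q) = i + 1 - q := by omega
        have e2 : i + 1 - q ≠ 0 := by omega
        have e3 : i ≠ q - 1 := by omega
        have e4 : ((i + 1 - q : ℕ) : ℝ) = ((i : ℝ) + 1) - q := by
          rw [Nat.cast_sub hgt.le]; push_cast; ring
        have e5 : ¬ (i + 1 ≤ q) := by omega
        rw [if_neg e5, e1]
        simp only [C, if_neg e2, if_neg e3, e4]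
        ring
    have h1 := h q hq1 hqw
    rw [sum_congr rfl hT, sum_add_distrib, sum_add_distrib, sum_lin, sum_ite_eq'] at h1
    rw [if_pos (mem_range.mpr (by omega))] at h1
    have hq0 : q ≠ 0 := by omega
    have h2 : C q = a q - (q : ℝ) / 2 := by
      simp only [C, if_neg hq0, sub_zero]
    rw [h2]
    linarith
  have hmax := max_aux w C hC
  have hmin := max_aux w (fun q => - C q) (by
    intro q hq1 hqw
    have := hC q hq1 hqw
    rw [sum_neg_distrib, ← this]
    ring)
  intro q hq1 hqw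
  have hq0 : q ≠ 0 := by omega
  have e1 : C q = C 0 := le_antisymm (hmax q hqw) (by have := hmin q hqw; linarith)
  have e2 : C q = a q - (q : ℝ) / 2 := by
    simp only [C, if_neg hq0, sub_zero]
  have e3 : C 0 = a 0 - s := by
    simp [C]
  rw [e2, e3] at e1
  linarith

/-- Strong induction on `q`: for `q ≤ w` this is `affine_of_rec`; for `q > w` all indices `q - (i+1)` are in
`[1, q)`, so `w * a q ≤ ∑_{i<w} (al + (q - (i+1))/2) = w al + w q/2 - w (w+1)/4`. -/
theorem le_of_rec (w : ℕ) (hw : 0 < w) (a : ℕ → ℝ)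
    (h : ∀ q, 1 ≤ q → (w : ℝ) * a q = ∑ i ∈ range w,
      (if i + 1 ≤ q then a (q - (i + 1)) else a (i + 1 - q) - ((i : ℝ) + 1 - q))) :
    ∀ q, 1 ≤ q → a q ≤ a 0 - (w : ℝ) * (w + 1) / 4 + q / 2 := by
  intro q
  induction q using Nat.strong_induction_on with
  | _ q ih =>
    intro hq1
    rcases Nat.lt_or_ge w q with hlt | hge
    · have h1 := h q hq1
      have h2 : ∑ i ∈ range w,
          (if i + 1 ≤ q then a (q - (i + 1)) else a (i + 1 - q) - ((i : ℝ) + 1 - q)) ≤
          ∑ i ∈ range w, ((a 0 - (w : ℝ) * (w + 1) / 4) + ((q : ℝ) - ((i : ℝ) + 1)) / 2) := by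
        refine sum_le_sum fun i hi => ?_
        have hi' := mem_range.mp hi
        have e0 : i + 1 ≤ q := by omega
        rw [if_pos e0]
        have h3 := ih (q - (i + 1)) (by omega) (by omega)
        have e4 : ((q - (i + 1) : ℕ) : ℝ) = (q : ℝ) - ((i : ℝ) + 1) := by
          rw [Nat.cast_sub e0]; push_cast; ring
        rw [e4] at h3
        exact h3
      rw [sum_add_distrib, sum_lin, sum_const, card_range, nsmul_eq_mul, ← h1] at h2
      have hw' : (0 : ℝ) < w := by exact_mod_cast hw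
      have h5 : (w : ℝ) * a q ≤ (w : ℝ) * (a 0 - (w : ℝ) * (w + 1) / 4 + q / 2) := by
        have h6 : (0 : ℝ) ≤ (w : ℝ) * (w + 1) / 4 := by positivity
        linarith
      exact le_of_mul_le_mul_left h5 hw'
    · exact le_of_eq (affine_of_rec w hw a (fun q' h1 _ => h q' h1) q hq1 hge)

/-- Insert `affine_of_rec` into `AA_conv`: with `al = AA w 0 - w (w+1)/4`,
`w AA w 0 + ∑_{1 ≤ t < w} (w - t)(al + t/2 - t) = sigma (w-1)/3`, so `al = -1/2`. (Use `sum_weights` and `sum_T`
of the library Lib_MP_49858b_nt for the sums of `w - t` and `(w - t) t`.) -/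
theorem AA_zero (w : ℕ) (hw : 0 < w) : AA w 0 = (w : ℝ) * (w + 1) / 4 - 1 / 2 := by
  have hc := AA_conv w hw
  have ha := affine_of_rec w hw (AA w) (fun q h1 _ => AA_rec w hw q h1)
  set s : ℝ := (w : ℝ) * (w + 1) / 4 with hs
  have hT : ∀ t ∈ range w, ((w : ℝ) - t) * (AA w t - t) =
      ((w : ℝ) * (AA w 0 - s) - ((AA w 0 - s) + (w : ℝ) / 2) * t + (1 / 2) * ((t : ℝ) * t)) +
        (if t = 0 then (w : ℝ) * s else 0) := by
    intro t ht
    have ht' := mem_range.mp ht
    rcases Nat.eq_zero_or_pos t with h0 | hpos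
    · subst h0
      simp only [if_true]
      push_cast
      ring
    · rw [ha t hpos ht'.le, if_neg (by omega)]
      ring
  rw [sum_congr rfl hT, sum_add_distrib, sum_ite_eq', if_pos (mem_range.mpr hw), sum_add_distrib,
    sum_sub_distrib, sum_const, card_range, nsmul_eq_mul, ← mul_sum, ← mul_sum, sum_id,
    sum_sq] at hc
  have hw' : (0 : ℝ) < w := by exact_mod_cast hw
  have h1 : (w : ℝ) * (w + 1) ≠ 0 := by positivity
  have h2 : (w : ℝ) * (w + 1) * (AA w 0 - s + 1 / 2) = 0 := by
    rw [hs] at hc ⊢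
    linarith
  have h3 := (mul_eq_zero.mp h2).resolve_left h1
  linarith

/-- `le_of_rec` for `AA w` with the value `AA_zero`. -/
theorem AA_le (w : ℕ) (hw : 0 < w) (q : ℕ) (hq : 1 ≤ q) : AA w q ≤ (q : ℝ) / 2 - 1 / 2 := by
  have h := le_of_rec w hw (AA w) (fun q h1 => AA_rec w hw q h1) q hq
  rw [AA_zero w hw] at h
  linarith

end SidonAvg
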