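import Pool.Agent.Lib_MP_49858b_av.Base
import Pool.Agent.Lib_MP_49858b_nt.Main

/-!
# Piece SA-U1: the upper bound, second moment of the window counts for a family
-/

set_option autoImplicit false

open Finset MP49858b

namespace SidonAvg

/-- grouping of the pairs of different elements by their difference -/
theorem sum_offDiag_eq (A : Finset ℤ) (n : ℕ) (h0 : ∀ a ∈ A, 0 ≤ a ∧ a ≤ (n : ℤ)) (g : ℤ → ℝ) :
    ∑ p ∈ A.offDiag, g (p.1 - p.2) =
      ∑ d ∈ (Icc (-(n : ℤ)) n).erase 0, g d * ((A.filter (fun x => x + d ∈ A)).card : ℝ) := by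
  have hmaps : ∀ p ∈ A.offDiag, p.1 - p.2 ∈ (Icc (-(n : ℤ)) n).erase 0 := by
    rintro ⟨a, b⟩ hab
    rw [Finset.mem_offDiag] at hab
    obtain ⟨ha, hb, hne⟩ := hab
    have h2 := h0 a ha
    have h3 := h0 b hb
    rw [Finset.mem_erase, Finset.mem_Icc]
    simp only at hne h2 h3 ⊢
    refine ⟨fun h => hne (by omega), by omega, by omega⟩
  rw [← Finset.sum_fiberwise_of_maps_to hmaps]
  refine Finset.sum_congr rfl (fun d hd => ?_)
  have hd0 : d ≠ 0 := (Finset.mem_erase.1 hd).1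
  have h1 : ∑ p ∈ A.offDiag with p.1 - p.2 = d, g (p.1 - p.2) =
      ∑ p ∈ A.offDiag with p.1 - p.2 = d, g d := by
    refine Finset.sum_congr rfl (fun p hp => ?_)
    rw [(Finset.mem_filter.1 hp).2]
  rw [h1, Finset.sum_const, nsmul_eq_mul, mul_comm]
  congr 2
  refine Finset.card_bij (fun p _ => p.2) ?_ ?_ ?_
  · rintro ⟨a, b⟩ hab
    rw [Finset.mem_filter, Finset.mem_offDiag] at hab
    simp only at hab ⊢
    rw [Finset.mem_filter]
    refine ⟨hab.1.2.1, ?_⟩
    have : b + d = a := by omega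
    rw [this]
    exact hab.1.1
  · rintro ⟨a, b⟩ hab ⟨a', b'⟩ hab' h
    rw [Finset.mem_filter] at hab hab'
    simp only at hab hab' h ⊢
    have h1 := hab.2
    have h2 := hab'.2
    rw [Prod.mk.injEq]
    constructor <;> omega
  · intro x hx
    rw [Finset.mem_filter] at hx
    refine ⟨(x + d, x), ?_, rfl⟩
    rw [Finset.mem_filter, Finset.mem_offDiag]
    simp only
    exact ⟨⟨hx.2, hx.1, by omega⟩, by omega⟩

/-- number of elements (pairs) bound: all differences `d = 1..n` together: for each `i`,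
`card * (card - 1) / 2 = ∑_{d=1..n} #{x ∈ A i | x + d ∈ A i}`; sum over `i`. (Compare `card_le` in
Lib_MP_49858b_nt/Main.lean.) -/
theorem card_le_avg {ι : Type} [Fintype ι] [Nonempty ι] (A : ι → Finset ℤ) (k n : ℕ) (lam : ℝ)
    (h0 : ∀ i, ∀ a ∈ A i, 0 ≤ a ∧ a ≤ (n : ℤ)) (hk : ∀ i, (A i).card = k)
    (hd : ∀ d : ℤ, d ≠ 0 → (∑ i, (((A i).filter (fun x => x + d ∈ A i)).card : ℝ)) ≤
      lam * Fintype.card ι) :
    (k : ℝ) * (k - 1) ≤ 2 * lam * n := by
  have h1 : ∀ i, ((A i).offDiag.card : ℝ) =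
      ∑ d ∈ (Icc (-(n : ℤ)) n).erase 0, (((A i).filter (fun x => x + d ∈ A i)).card : ℝ) := by
    intro i
    have := sum_offDiag_eq (A i) n (h0 i) (fun _ => 1)
    simpa using this
  have h2 : ∀ i, ((A i).offDiag.card : ℝ) = (k : ℝ) * (k - 1) := by
    intro i
    rw [Finset.offDiag_card, hk i, Nat.cast_sub (Nat.le_mul_self k)]
    push_cast
    ring
  have h3 : (Fintype.card ι : ℝ) * ((k : ℝ) * (k - 1)) ≤
      (Fintype.card ι : ℝ) * (2 * lam * n) := by
    calc (Fintype.card ι : ℝ) * ((k : ℝ) * (k - 1)) = ∑ i : ι, ((A i).offDiag.card : ℝ) := by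
          rw [Finset.sum_congr rfl (fun i _ => h2 i), Finset.sum_const, Finset.card_univ,
            nsmul_eq_mul]
      _ = ∑ d ∈ (Icc (-(n : ℤ)) n).erase 0,
            ∑ i, (((A i).filter (fun x => x + d ∈ A i)).card : ℝ) := by
          rw [Finset.sum_congr rfl (fun i _ => h1 i), Finset.sum_comm]
      _ ≤ ∑ d ∈ (Icc (-(n : ℤ)) n).erase 0, lam * Fintype.card ι :=
          Finset.sum_le_sum (fun d hd' => hd d (Finset.mem_erase.1 hd').1)
      _ = (Fintype.card ι : ℝ) * (2 * lam * n) := by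
          rw [Finset.sum_const, Finset.card_erase_of_mem (by rw [Finset.mem_Icc]; omega),
            Int.card_Icc, nsmul_eq_mul]
          have h4 : ((n : ℤ) + 1 - -(n : ℤ)).toNat - 1 = 2 * n := by omega
          rw [h4]
          push_cast
          ring
  have h5 : (0 : ℝ) < Fintype.card ι := by exact_mod_cast Fintype.card_pos
  exact le_of_mul_le_mul_left h3 h5

/-- `sum_F_sq` of Lib_MP_49858b_nt/Main.lean for a family: for each `i` the left side is
`∑_{a, b ∈ A i} W u (a - b) = k W u 0 + ∑_{d ≠ 0, |d| < u} W u d * #{x ∈ A i | x + d ∈ A i}` (the first half of the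
proof of `sum_F_sq`; group the pairs by `d = a - b`, `x = b`); sum over `i`, use `hd`, `W_nonneg`, `sum_W`. -/
theorem sum_F_sq_avg {ι : Type} [Fintype ι] [Nonempty ι] (A : ι → Finset ℤ) (k u n : ℕ) (lam : ℝ)
    (hlam : 0 < lam) (h0 : ∀ i, ∀ a ∈ A i, 0 ≤ a ∧ a ≤ (n : ℤ)) (hk : ∀ i, (A i).card = k)
    (hd : ∀ d : ℤ, d ≠ 0 → (∑ i, (((A i).filter (fun x => x + d ∈ A i)).card : ℝ)) ≤
      lam * Fintype.card ι) :
    ∑ i, ∑ y ∈ Ico (0 : ℤ) (n + u), (∑ a ∈ A i, w u (y - a)) ^ 2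
      ≤ Fintype.card ι * (k * W u 0 + lam * (((u : ℝ) * (u + 1) / 2) ^ 2 - W u 0)) := by
  have hone : ∀ i, ∑ y ∈ Ico (0 : ℤ) (n + u), (∑ a ∈ A i, w u (y - a)) ^ 2 =
      k * W u 0 + ∑ d ∈ (Icc (-(n : ℤ)) n).erase 0,
        W u d * (((A i).filter (fun x => x + d ∈ A i)).card : ℝ) := by
    intro i
    have h1 : ∑ y ∈ Ico (0 : ℤ) (n + u), (∑ a ∈ A i, w u (y - a)) ^ 2
        = ∑ a ∈ A i, ∑ b ∈ A i, W u (a - b) := by
      have h2 : ∀ y ∈ Ico (0 : ℤ) (n + u), (∑ a ∈ A i, w u (y - a)) ^ 2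
          = ∑ a ∈ A i, ∑ b ∈ A i, w u (y - a) * w u (y - b) := by
        intro y _
        rw [pow_two, Finset.sum_mul_sum]
      rw [Finset.sum_congr rfl h2, Finset.sum_comm]
      refine Finset.sum_congr rfl (fun a ha => ?_)
      rw [Finset.sum_comm]
      refine Finset.sum_congr rfl (fun b _ => ?_)
      have ha' := h0 i a ha
      rw [sum_w u a (Ico (0 : ℤ) (n + u)) (by
        intro s hs
        have hs' := Finset.mem_range.1 hs
        rw [Finset.mem_Ico]
        constructor <;> omega) (fun y => w u (y - b))]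
      unfold W
      refine Finset.sum_congr rfl (fun s _ => ?_)
      rw [show a + (s : ℤ) - b = (s : ℤ) + (a - b) from by ring]
    rw [h1]
    have h3 : ∑ a ∈ A i, ∑ b ∈ A i, W u (a - b)
        = ∑ p ∈ (A i).diag, W u (p.1 - p.2) + ∑ p ∈ (A i).offDiag, W u (p.1 - p.2) := by
      rw [← Finset.sum_product', ← Finset.diag_union_offDiag,
        Finset.sum_union (Finset.disjoint_diag_offDiag (A i))]
    rw [h3]
    have h4 : ∑ p ∈ (A i).diag, W u (p.1 - p.2) = k * W u 0 := by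
      rw [Finset.sum_diag]
      simp [hk i]
    rw [h4, sum_offDiag_eq (A i) n (h0 i) (fun d => W u d)]
  rw [Finset.sum_congr rfl (fun i _ => hone i), Finset.sum_add_distrib, Finset.sum_const,
    Finset.card_univ, nsmul_eq_mul, Finset.sum_comm]
  have h6 : ∑ d ∈ (Icc (-(n : ℤ)) n).erase 0, ∑ i : ι,
      W u d * (((A i).filter (fun x => x + d ∈ A i)).card : ℝ) ≤
      ∑ d ∈ (Icc (-(n : ℤ)) n).erase 0, W u d * (lam * Fintype.card ι) := by
    refine Finset.sum_le_sum (fun d hd' => ?_)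
    rw [← Finset.mul_sum]
    exact mul_le_mul_of_nonneg_left (hd d (Finset.mem_erase.1 hd').1) (W_nonneg u d)
  have h7 : ∑ d ∈ (Icc (-(n : ℤ)) n).erase 0, W u d ≤ ((u : ℝ) * (u + 1) / 2) ^ 2 - W u 0 := by
    have h71 : ∑ d ∈ ((Icc (-(n : ℤ)) n).erase 0).filter
        (fun d => d ∈ Ioo (-(u : ℤ)) u), W u d
        = ∑ d ∈ (Icc (-(n : ℤ)) n).erase 0, W u d := by
      refine Finset.sum_filter_of_ne (fun d _ hne => ?_)
      by_contra h
      exact hne (W_eq_zero u h)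
    have h72 : ∑ d ∈ ((Icc (-(n : ℤ)) n).erase 0).filter
        (fun d => d ∈ Ioo (-(u : ℤ)) u), W u d ≤ ∑ d ∈ (Ioo (-(u : ℤ)) u).erase 0, W u d := by
      refine Finset.sum_le_sum_of_subset_of_nonneg (fun d hd' => ?_) (fun d _ _ => W_nonneg u d)
      rw [Finset.mem_filter] at hd'
      rw [Finset.mem_erase]
      exact ⟨(Finset.mem_erase.1 hd'.1).1, hd'.2⟩
    have h73 : ∑ d ∈ (Ioo (-(u : ℤ)) u).erase 0, W u d ≤
        ((u : ℝ) * (u + 1) / 2) ^ 2 - W u 0 := by
      rw [← sum_W u]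
      rcases Nat.eq_zero_or_pos u with rfl | hu
      · simp [W]
      · have h8 := Finset.add_sum_erase (Ioo (-(u : ℤ)) u) (fun d => W u d)
          (a := 0) (by rw [Finset.mem_Ioo]; omega)
        linarith
    linarith
  rw [← Finset.sum_mul] at h6
  have h8 : (0 : ℝ) ≤ lam * Fintype.card ι := by positivity
  have h9 := mul_le_mul_of_nonneg_right h7 h8
  nlinarith

end SidonAvg
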