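import Pool.Agent.Lib_MP_49858b_av.U1
import Pool.Agent.Lib_MP_49858b_nt.Final

/-!
# Piece SA-U2: the window inequality and the bound for families
-/

set_option autoImplicit false

open Finset MP49858b

namespace SidonAvg

/-- `window` of Lib_MP_49858b_nt/Main.lean for a family: Cauchy-Schwarz for each `i`
(`(k * sigma)^2 ≤ (∑_y F_i(y)^2) * ∑_y G(y)^2`), sum over `i`, divide by `card ι`; then `sum_F_sq_avg` and
`sum_G_sq_le` as there; `k W u 0 + lam (sigma^2 - W u 0) ≤ sigma^2 (lam + 4/3 * (k/u))`. -/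
theorem window_avg {ι : Type} [Fintype ι] [Nonempty ι] (A : ι → Finset ℤ) (k u n : ℕ) (lam : ℝ)
    (hlam : 0 < lam) (hu : 0 < u) (h0 : ∀ i, ∀ a ∈ A i, 0 ≤ a ∧ a ≤ (n : ℤ))
    (hk : ∀ i, (A i).card = k)
    (hd : ∀ d : ℤ, d ≠ 0 → (∑ i, (((A i).filter (fun x => x + d ∈ A i)).card : ℝ)) ≤
      lam * Fintype.card ι)
    {η : ℝ} (hη0 : 0 ≤ η) (hη1 : η ≤ 1)
    (hε : ∀ i : ℤ, (n : ℤ) - u + 1 ≤ i → |g u i| ≤ η * cc u) :
    (k : ℝ) ^ 2 ≤ (lam + 4 / 3 * (k / u)) * (n + 1 + 2 / 3 * u + 4 / 3 * η * u) := by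
  have hu' : (0 : ℝ) < u := by exact_mod_cast hu
  have hc : (0 : ℝ) < Fintype.card ι := by exact_mod_cast Fintype.card_pos
  have hk0 : (0 : ℝ) ≤ k := by positivity
  set σ : ℝ := (u : ℝ) * (u + 1) / 2 with hσ
  have hσ0 : 0 < σ := by positivity
  have hcs := cc_mul u hu
  rw [← hσ] at hcs
  -- Cauchy-Schwarz
  have h2 : ∀ i, ((k : ℝ) * σ) ^ 2 ≤
      (∑ y ∈ Ico (0 : ℤ) (n + u), (∑ a ∈ A i, w u (y - a)) ^ 2) *
        ∑ y ∈ Ico (0 : ℤ) (n + u), G u n y ^ 2 := by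
    intro i
    have h1 : ∑ y ∈ Ico (0 : ℤ) (n + u), (∑ a ∈ A i, w u (y - a)) * G u n y = k * σ := by
      simp only [Finset.sum_mul]
      rw [Finset.sum_comm]
      have h2 : ∀ a ∈ A i, ∑ y ∈ Ico (0 : ℤ) (n + u), w u (y - a) * G u n y = σ := by
        intro a ha
        have ha' := h0 i a ha
        rw [sum_w u a (Ico (0 : ℤ) (n + u)) (by
          intro s hs
          have hs' := Finset.mem_range.1 hs
          rw [Finset.mem_Ico]
          constructor <;> omega) (G u n)]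
        exact G_conv u n hu ha'.2
      rw [Finset.sum_congr rfl h2, Finset.sum_const, nsmul_eq_mul, hk i]
    have h2 := Finset.sum_mul_sq_le_sq_mul_sq (Ico (0 : ℤ) (n + u))
      (fun y => ∑ a ∈ A i, w u (y - a)) (G u n)
    rwa [h1] at h2
  have h2' : (Fintype.card ι : ℝ) * ((k : ℝ) * σ) ^ 2 ≤
      (∑ i, ∑ y ∈ Ico (0 : ℤ) (n + u), (∑ a ∈ A i, w u (y - a)) ^ 2) *
        ∑ y ∈ Ico (0 : ℤ) (n + u), G u n y ^ 2 := by
    rw [Finset.sum_mul]
    have := Finset.sum_le_sum (fun i (_ : i ∈ (univ : Finset ι)) => h2 i)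
    rwa [Finset.sum_const, nsmul_eq_mul, Finset.card_univ] at this
  have h3 := sum_F_sq_avg A k u n lam hlam h0 hk hd
  have h4 := sum_G_sq_le u n hu (ε := η * cc u)
    (by nlinarith [cc_pos u hu]) hε
  rw [← hσ] at h3 h4
  have h5 : ∑ y ∈ Ico (0 : ℤ) (n + u), G u n y ^ 2 ≤ n + 1 + 2 / 3 * u + 4 / 3 * η * u := by
    refine h4.trans ?_
    have h6 : (cc u + η * cc u) * (((u : ℝ) - 1) * u * (u + 1) / 6) * (2 + σ * (η * cc u))
        = ((u : ℝ) - 1) / 3 * (1 + η) * (2 + η) := by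
      have e1 : σ * (η * cc u) = η := by linear_combination η * hcs
      have e2 : (cc u + η * cc u) * (((u : ℝ) - 1) * u * (u + 1) / 6)
          = ((u : ℝ) - 1) / 3 * (1 + η) := by
        have : (cc u + η * cc u) * (((u : ℝ) - 1) * u * (u + 1) / 6)
            = (1 + η) * ((u : ℝ) - 1) / 3 * (cc u * σ) := by rw [hσ]; ring
        rw [this, hcs]
        ring
      rw [e1, e2]
    rw [h6]
    have h7 : (0 : ℝ) ≤ (u : ℝ) - 1 := by
      have : (1 : ℝ) ≤ u := by exact_mod_cast hu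
      linarith
    have h8 : (1 + η) * (2 + η) ≤ 2 + 4 * η := by nlinarith
    have h9 : 0 ≤ 2 + 4 * η := by positivity
    nlinarith
  have h6 : 0 ≤ ∑ y ∈ Ico (0 : ℤ) (n + u), G u n y ^ 2 :=
    Finset.sum_nonneg (fun y _ => sq_nonneg _)
  have h7 : (k : ℝ) * W u 0 + lam * (σ ^ 2 - W u 0) ≤ σ ^ 2 * (lam + 4 / 3 * (k / u)) := by
    rw [W_zero]
    have h8 : σ ^ 2 * (lam + 4 / 3 * (k / u)) = lam * σ ^ 2 + k * (u * (u + 1) ^ 2 / 3) := by
      rw [hσ]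
      field_simp
      ring
    rw [h8]
    have h9 : (u : ℝ) * (u + 1) * (2 * u + 1) / 6 ≤ u * (u + 1) ^ 2 / 3 := by nlinarith
    have h10 : 0 ≤ (u : ℝ) * (u + 1) * (2 * u + 1) / 6 := by positivity
    have h11 := mul_le_mul_of_nonneg_left h9 hk0
    have h12 := mul_nonneg hlam.le h10
    nlinarith
  have h9 : (Fintype.card ι : ℝ) * ((k : ℝ) * σ) ^ 2 ≤
      (Fintype.card ι * (σ ^ 2 * (lam + 4 / 3 * (k / u)))) *
        (n + 1 + 2 / 3 * u + 4 / 3 * η * u) := by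
    refine h2'.trans ?_
    refine mul_le_mul (h3.trans ?_) h5 h6 (by positivity)
    exact mul_le_mul_of_nonneg_left h7 hc.le
  have h10 : (Fintype.card ι * σ ^ 2) * (k : ℝ) ^ 2 ≤ (Fintype.card ι * σ ^ 2) *
      ((lam + 4 / 3 * (k / u)) * (n + 1 + 2 / 3 * u + 4 / 3 * η * u)) := by linarith
  exact le_of_mul_le_mul_left h10 (by positivity)

/-- `diam` of Lib_MP_49858b_nt/Final.lean for a family. `x = √k`. If `x < 11` use `card_le_avg` as there
(`x^4 - x^2 ≤ 2 lam n`). Otherwise suppose the contrary, so `lam (n+1) < x^4`; `k ≤ n + 1`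
(one `A i` has `k` elements in `0..n`), so `lam < x^2`; `card_le_avg` gives `lam n ≥ (x^4 - x^2)/2 ≥ 60/121 x^4`.
Take `u = ⌈√2 x^3 / lam⌉`, so `√2 x^3 ≤ lam u ≤ √2 x^3 + lam`. `3 u ≤ n` since
`3 √2 x^3/lam ≤ 3 √2 n / (60/121 x) ≤ 0.78 n` and `n ≥ x^2 - 1 ≥ 120`. `r`, `η` as in `diam`: `η n ≤ 8 u`, so
`lam η u ≤ 8 (lam u)^2 / (lam n) ≤ 37 x^2`; `(k/u)(n+1) ≤ x^2 * lam (n+1)/(√2 x^3) ≤ x^3/√2 = (√2/2) x^3`. Expand
`window_avg` as in `diam`. -/
theorem diam_avg {ι : Type} [Fintype ι] [Nonempty ι] (A : ι → Finset ℤ) (k n : ℕ) (lam : ℝ)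
    (hlam : 0 < lam) (h0 : ∀ i, ∀ a ∈ A i, 0 ≤ a ∧ a ≤ (n : ℤ)) (hk : ∀ i, (A i).card = k)
    (hd : ∀ d : ℤ, d ≠ 0 → (∑ i, (((A i).filter (fun x => x + d ∈ A i)).card : ℝ)) ≤
      lam * Fintype.card ι) :
    (k : ℝ) ^ 2 - 4 * √2 / 3 * (k : ℝ) ^ (3 / 2 : ℝ) - 60 * k ≤ lam * ((n : ℝ) + 1) := by
  rw [rpow_three_half]
  obtain ⟨x, hx⟩ : ∃ x : ℝ, x = √(k : ℝ) := ⟨_, rfl⟩
  have hx0 : 0 ≤ x := by rw [hx]; positivity
  have hx2 : (k : ℝ) = x ^ 2 := by rw [hx, Real.sq_sqrt (by positivity)]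
  have hcard := card_le_avg A k n lam h0 hk hd
  obtain ⟨s, hs⟩ : ∃ s : ℝ, s = √2 := ⟨_, rfl⟩
  have hs2 : s ^ 2 = 2 := by rw [hs, Real.sq_sqrt (by norm_num)]
  have hs0 : 0 ≤ s := by rw [hs]; positivity
  have hs1 : 1.414 < s := by nlinarith
  have hs3 : s < 1.415 := by nlinarith
  -- `k ≤ n + 1`
  have hkn : (k : ℝ) ≤ n + 1 := by
    obtain ⟨i⟩ := (inferInstance : Nonempty ι)
    have h1 : (A i).card ≤ (Icc (0 : ℤ) n).card := by
      refine Finset.card_le_card (fun a ha => ?_)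
      rw [Finset.mem_Icc]
      exact h0 i a ha
    rw [hk i, Int.card_Icc] at h1
    have h2 : k ≤ n + 1 := by omega
    exact_mod_cast h2
  rw [← hx, ← hs, hx2]
  rw [hx2] at hcard hkn
  obtain ⟨L, hL⟩ : ∃ L : ℝ, L = lam * n := ⟨_, rfl⟩
  have hLn : lam * ((n : ℝ) + 1) = L + lam := by rw [hL]; ring
  have hcard' : x ^ 2 * (x ^ 2 - 1) ≤ 2 * L := by rw [hL]; linarith
  rcases lt_or_ge x 11 with hsmall | hbig
  · rw [hLn]
    nlinarith [mul_nonneg hx0 hx0, mul_nonneg hx0 (sub_nonneg.2 hsmall.le),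
      mul_nonneg (mul_nonneg hx0 hx0) (sub_nonneg.2 hsmall.le), pow_nonneg hx0 3,
      mul_nonneg (pow_nonneg hx0 3) (sub_nonneg.2 hs1.le)]
  by_contra hcon
  rw [not_le] at hcon
  have hxp : 0 < x := by linarith
  have hx3 : 0 < x ^ 3 := by positivity
  have hx2p : 0 < x ^ 2 := by positivity
  have hN : lam * ((n : ℝ) + 1) ≤ x ^ 4 := by
    have h1 : 0 ≤ s * x ^ 3 := by positivity
    nlinarith
  have hn : 60 / 121 * x ^ 4 ≤ lam * n := by
    have : 121 ≤ x ^ 2 := by nlinarith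
    rw [← hL]
    nlinarith
  have hlx : lam ≤ x ^ 2 := by
    have h1 : lam * x ^ 2 ≤ x ^ 2 * x ^ 2 := by
      calc lam * x ^ 2 ≤ lam * ((n : ℝ) + 1) := mul_le_mul_of_nonneg_left hkn hlam.le
        _ ≤ x ^ 4 := hN
        _ = x ^ 2 * x ^ 2 := by ring
    exact le_of_mul_le_mul_right h1 hx2p
  have hn120 : (120 : ℝ) ≤ n := by nlinarith
  -- the window length
  obtain ⟨u, hu⟩ : ∃ u : ℕ, u = ⌈s * x ^ 3 / lam⌉₊ := ⟨_, rfl⟩
  have hu1 : s * x ^ 3 ≤ lam * u := by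
    have h1 : s * x ^ 3 / lam ≤ u := by rw [hu]; exact Nat.le_ceil _
    rw [div_le_iff₀ hlam] at h1
    linarith
  have hu2 : lam * (u : ℝ) ≤ s * x ^ 3 + lam := by
    have h1 : (u : ℝ) ≤ s * x ^ 3 / lam + 1 := by
      rw [hu]; exact (Nat.ceil_lt_add_one (by positivity)).le
    have h2 := mul_le_mul_of_nonneg_left h1 hlam.le
    have h3 : lam * (s * x ^ 3 / lam + 1) = s * x ^ 3 + lam := by field_simp
    rwa [h3] at h2
  have hsx : 0 < s * x ^ 3 := by positivity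
  have hu0' : (0 : ℝ) < u := by
    by_contra h
    have h1 : (u : ℝ) = 0 := le_antisymm (not_lt.1 h) (Nat.cast_nonneg _)
    rw [h1, mul_zero] at hu1
    linarith
  have hu0 : 0 < u := by exact_mod_cast hu0'
  have hx11 : (1331 : ℝ) ≤ x ^ 3 := by nlinarith [mul_nonneg hx0 hx0]
  have h3u : 3 * (u : ℝ) ≤ n := by
    have h1 : lam * (3 * (u : ℝ)) ≤ lam * n := by
      have h2 : 3 * (s * x ^ 3) ≤ 0.78 * (lam * n) := by
        have h3 : 11 * x ^ 3 ≤ x ^ 4 := by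
          have : x ^ 4 = x * x ^ 3 := by ring
          rw [this]
          exact mul_le_mul_of_nonneg_right hbig hx3.le
        nlinarith
      have h4 : 3 * lam ≤ 0.025 * (lam * n) := by nlinarith
      have h5 : 0 ≤ lam * (n : ℝ) := by positivity
      nlinarith
    exact le_of_mul_le_mul_left h1 hlam
  have h3u' : 3 * u ≤ n := by exact_mod_cast h3u
  obtain ⟨q, hq⟩ : ∃ q : ℕ, q = n / u := ⟨_, rfl⟩
  have hq3 : 3 ≤ q := by rw [hq, Nat.le_div_iff_mul_le hu0]; exact h3u'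
  have hq1 : q * u ≤ n := by rw [hq]; exact Nat.div_mul_le_self n u
  have hq2 : n < (q + 1) * u := by
    rw [hq]
    have := Nat.lt_div_mul_add (a := n) hu0
    nlinarith
  obtain ⟨r, rfl⟩ : ∃ r : ℕ, q = r + 1 := ⟨q - 1, by omega⟩
  have hr1 : 1 ≤ r := by omega
  have hcc := cc_pos u hu0
  obtain ⟨η, hη⟩ : ∃ η : ℝ, η = ((u : ℝ) + 1) / u * (1 / 2) ^ r := ⟨_, rfl⟩
  have hη0 : 0 ≤ η := by rw [hη]; positivity
  have hηc : η * cc u = 2 / (u : ℝ) ^ 2 * (1 / 2) ^ r := by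
    rw [hη]
    unfold cc
    field_simp
  have hu1' : (1 : ℝ) ≤ u := by exact_mod_cast hu0
  have hratio : ((u : ℝ) + 1) / u ≤ 2 := by
    rw [div_le_iff₀ hu0']
    linarith
  have hη1 : η ≤ 1 := by
    rw [hη]
    have h1 : (1 / 2 : ℝ) ^ r ≤ 1 / 2 := by
      calc (1 / 2 : ℝ) ^ r ≤ (1 / 2) ^ 1 := pow_le_pow_of_le_one (by norm_num) (by norm_num) hr1
        _ = 1 / 2 := by norm_num
    have h2 : (0 : ℝ) ≤ (1 / 2) ^ r := by positivity
    nlinarith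
  have hn0 : (0 : ℝ) < n := by linarith
  have hη2 : η * n ≤ 8 * u := by
    have h1 : (n : ℝ) ≤ ((r : ℝ) + 2) * u := by
      have : (n : ℝ) ≤ ((r + 1 + 1 : ℕ) : ℝ) * u := by exact_mod_cast hq2.le
      push_cast at this
      linarith
    have h2 : ((r : ℝ) + 2) * (1 / 2) ^ r ≤ 4 := by
      have h3 : ((r + 2 : ℕ) : ℝ) ≤ (2 : ℝ) ^ (r + 2) := by
        exact_mod_cast (Nat.lt_two_pow_self (n := r + 2)).le
      have h4 : (2 : ℝ) ^ (r + 2) * (1 / 2) ^ r = 4 := by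
        rw [pow_add, mul_comm ((2 : ℝ) ^ r), mul_assoc, ← mul_pow]
        norm_num
      have h5 : (0 : ℝ) ≤ (1 / 2) ^ r := by positivity
      push_cast at h3
      nlinarith
    have h5 : (0 : ℝ) ≤ (1 / 2) ^ r := by positivity
    rw [hη]
    have h6 : (n : ℝ) * (1 / 2) ^ r ≤ 4 * u := by
      calc (n : ℝ) * (1 / 2) ^ r ≤ (((r : ℝ) + 2) * u) * (1 / 2) ^ r :=
            mul_le_mul_of_nonneg_right h1 h5
        _ = (((r : ℝ) + 2) * (1 / 2) ^ r) * u := by ring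
        _ ≤ 4 * u := mul_le_mul_of_nonneg_right h2 hu0'.le
    calc ((u : ℝ) + 1) / u * (1 / 2) ^ r * n = ((u : ℝ) + 1) / u * (n * (1 / 2) ^ r) := by ring
      _ ≤ 2 * (4 * u) := mul_le_mul hratio h6 (by positivity) (by norm_num)
      _ = 8 * u := by ring
  have hwin := window_avg A k u n lam hlam hu0 h0 hk hd hη0 hη1 (fun i hi => by
    rw [hηc]
    refine abs_g_decay u hu0 r i ?_
    have : ((r : ℤ) + 1) * u ≤ n := by exact_mod_cast hq1
    linarith)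
  rw [hx2] at hwin
  have hP0 : 0 ≤ x ^ 2 / (u : ℝ) := by positivity
  have hPu : x ^ 2 / (u : ℝ) * u = x ^ 2 := by field_simp
  have hPN : x ^ 2 / (u : ℝ) * ((n : ℝ) + 1) ≤ s / 2 * x ^ 3 := by
    rw [div_mul_eq_mul_div, div_le_iff₀ hu0']
    have h1 : lam * (x ^ 2 * ((n : ℝ) + 1)) ≤ lam * (s / 2 * x ^ 3 * u) := by
      calc lam * (x ^ 2 * ((n : ℝ) + 1)) = x ^ 2 * (lam * ((n : ℝ) + 1)) := by ring
        _ ≤ x ^ 2 * x ^ 4 := mul_le_mul_of_nonneg_left hN (by positivity)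
        _ = s / 2 * x ^ 3 * (s * x ^ 3) := by linear_combination (-(x ^ 6) / 2) * hs2
        _ ≤ s / 2 * x ^ 3 * (lam * u) := mul_le_mul_of_nonneg_left hu1 (by positivity)
        _ = lam * (s / 2 * x ^ 3 * u) := by ring
    exact le_of_mul_le_mul_left h1 hlam
  have hlu : lam * (u : ℝ) ≤ s * x ^ 3 + x ^ 2 := by linarith
  have hηu : lam * (η * u) ≤ 37 * x ^ 2 := by
    have h1 : lam * (η * u) * (lam * n) ≤ 37 * x ^ 2 * (lam * n) := by
      calc lam * (η * u) * (lam * n) = (η * n) * (lam * (lam * u)) := by ring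
        _ ≤ (8 * u) * (lam * (lam * u)) := mul_le_mul_of_nonneg_right hη2 (by positivity)
        _ = 8 * ((lam * u) * (lam * u)) := by ring
        _ ≤ 8 * ((s * x ^ 3 + x ^ 2) * (s * x ^ 3 + x ^ 2)) := by
          refine mul_le_mul_of_nonneg_left ?_ (by norm_num)
          exact mul_le_mul hlu hlu (by positivity) (by positivity)
        _ ≤ 37 * x ^ 2 * (60 / 121 * x ^ 4) := by
          have h3 : (s * x ^ 3 + x ^ 2) * (s * x ^ 3 + x ^ 2)
              = x ^ 4 * (2 * x ^ 2 + 2 * s * x + 1) := by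
            linear_combination (x ^ 6) * hs2
          rw [h3]
          have h4 : 8 * (2 * x ^ 2 + 2 * s * x + 1) ≤ 37 * (60 / 121) * x ^ 2 := by nlinarith
          have h5 : 0 ≤ x ^ 4 := by positivity
          nlinarith
        _ ≤ 37 * x ^ 2 * (lam * n) := mul_le_mul_of_nonneg_left hn (by positivity)
    exact le_of_mul_le_mul_right h1 (by positivity)
  have hexp : (lam + 4 / 3 * (x ^ 2 / (u : ℝ))) * ((n : ℝ) + 1 + 2 / 3 * u + 4 / 3 * η * u)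
      = lam * ((n : ℝ) + 1) + 2 / 3 * (lam * u) + 4 / 3 * (lam * (η * u))
        + 4 / 3 * (x ^ 2 / (u : ℝ) * ((n : ℝ) + 1))
        + 8 / 9 * (x ^ 2 / (u : ℝ) * u) + 16 / 9 * (x ^ 2 / (u : ℝ) * u) * η := by
    ring
  rw [hexp, hPu] at hwin
  have h1 : x ^ 2 * η ≤ x ^ 2 := by nlinarith [pow_nonneg hx0 2]
  nlinarith

end SidonAvg
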