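import Pool.Agent.Lib_MP_49858b_av.U2

/-!
# Piece SA-U3: part (1) in the language of the statement
-/

set_option autoImplicit false

open Finset

namespace SidonAvg

private theorem phi_inj : Function.Injective (fun a : ℕ => (a : ℤ) - 1) := by
  intro a b h
  have h' : (a : ℤ) - 1 = (b : ℤ) - 1 := h
  omega

private theorem count_pos (A : Finset ℕ) (d : ℕ) :
    ((A.image (fun a : ℕ => (a : ℤ) - 1)).filter
      (fun x => x + (d : ℤ) ∈ A.image (fun a : ℕ => (a : ℤ) - 1))).card = rr A d := by
  classical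
  rw [Finset.filter_image, Finset.card_image_of_injective _ phi_inj]
  unfold rr
  congr 1
  refine Finset.filter_congr fun a _ => ?_
  have h : (a : ℤ) - 1 + d = (fun a : ℕ => (a : ℤ) - 1) (a + d) := by
    simp only [Nat.cast_add]
    ring
  rw [h]
  exact phi_inj.mem_finset_image

private theorem count_neg (B : Finset ℤ) (d : ℤ) :
    (B.filter (fun x => x + d ∈ B)).card = (B.filter (fun x => x + -d ∈ B)).card := by
  classical
  refine Finset.card_bij (fun x _ => x + d) ?_ ?_ ?_
  · intro x hx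
    rw [Finset.mem_filter] at hx ⊢
    refine ⟨hx.2, ?_⟩
    rw [add_neg_cancel_right]
    exact hx.1
  · intro x _ y _ h
    exact add_right_cancel h
  · intro y hy
    rw [Finset.mem_filter] at hy
    refine ⟨y + -d, ?_, ?_⟩
    · rw [Finset.mem_filter]
      refine ⟨hy.2, ?_⟩
      rw [neg_add_cancel_right]
      exact hy.1
    · exact neg_add_cancel_right y d

/-- Apply `diam_avg` with `ι = Fin M` to the images of the `A i` under `a ↦ a - 1` (as in `main` of
Lib_MP_49858b_nt/Final.lean), `n = N - 1`. For `d > 0` the counts agree; for `d < 0` the map `x ↦ x + d` is a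
bijection onto the pairs with difference `-d`. If `N = 0` then `k = 0`. -/
theorem upper (lam : ℝ) (k N M : ℕ) (A : Fin M → Finset ℕ) (hlam : 0 < lam) (hM : 0 < M)
    (hA : ∀ i, A i ⊆ Finset.Icc 1 N ∧ (A i).card = k)
    (hd : ∀ d : ℕ, 0 < d → (∑ i, (rr (A i) d : ℝ)) ≤ lam * M) :
    (k : ℝ) ^ 2 - 4 * √2 / 3 * (k : ℝ) ^ (3 / 2 : ℝ) - 60 * k ≤ lam * N := by
  classical
  haveI : Nonempty (Fin M) := ⟨⟨0, hM⟩⟩
  rcases Nat.eq_zero_or_pos N with rfl | hN
  · have hk : k = 0 := by
      have h := hA ⟨0, hM⟩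
      rw [← h.2, Finset.card_eq_zero]
      exact Finset.subset_empty.1 (by simpa using h.1)
    subst hk
    simp only [Nat.cast_zero]
    rw [Real.zero_rpow (by norm_num)]
    simp
  have h1 := diam_avg (fun i => (A i).image (fun a : ℕ => (a : ℤ) - 1)) k (N - 1) lam hlam
    (by
      intro i a ha
      obtain ⟨a', ha', rfl⟩ := Finset.mem_image.1 ha
      have h2 := Finset.mem_Icc.1 ((hA i).1 ha')
      constructor
      · show (0 : ℤ) ≤ (a' : ℤ) - 1
        omega
      · show (a' : ℤ) - 1 ≤ ((N - 1 : ℕ) : ℤ)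
        omega)
    (fun i => by rw [Finset.card_image_of_injective _ phi_inj, (hA i).2])
    (by
      intro d hd0
      rw [Fintype.card_fin]
      rcases lt_or_gt_of_ne hd0 with h | h
      · obtain ⟨e, he⟩ : ∃ e : ℕ, d = -(e : ℤ) := ⟨d.natAbs, by omega⟩
        refine le_trans (le_of_eq (Finset.sum_congr rfl fun i _ => ?_)) (hd e (by omega))
        rw [count_neg, he, neg_neg, count_pos]
      · obtain ⟨e, he⟩ : ∃ e : ℕ, d = (e : ℤ) := ⟨d.natAbs, by omega⟩
        refine le_trans (le_of_eq (Finset.sum_congr rfl fun i _ => ?_)) (hd e (by omega))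
        rw [he, count_pos])
  have h2 : ((N - 1 : ℕ) : ℝ) + 1 = N := by
    rw [Nat.cast_sub hN]
    push_cast
    ring
  rw [h2] at h1
  exact h1

end SidonAvg
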